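import Mathlib

set_option autoImplicit false

namespace Pool.Agent.R493.CR

open Ideal Module
open scoped nonZeroDivisors

/-- Finite abelian groups: a quotient embeds. -/
theorem embed_of_surj {A B : Type*} [CommGroup A] [CommGroup B] [Finite A] [Finite B]
    (φ : A →* B) (hφ : Function.Surjective φ) : ∃ ψ : B →* A, Function.Injective ψ := by
  obtain ⟨e⟩ := CommGroup.monoidHom_mulEquiv_of_hasEnoughRootsOfUnity A ℂ
  obtain ⟨e'⟩ := CommGroup.monoidHom_mulEquiv_of_hasEnoughRootsOfUnity B ℂ
  let t : (B →* ℂˣ) →* (A →* ℂˣ) :=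
    { toFun := fun χ => χ.comp φ
      map_one' := by ext; simp
      map_mul' := by intro a b; ext; simp }
  have ht : Function.Injective t := by
    intro a b hab
    ext x
    obtain ⟨y, rfl⟩ := hφ x
    have := DFunLike.congr_fun hab y
    exact congrArg _ this
  refine ⟨(e.toMonoidHom.comp t).comp e'.symm.toMonoidHom, ?_⟩
  intro a b hab
  have h1 : e (t (e'.symm a)) = e (t (e'.symm b)) := hab
  exact e'.symm.injective (ht (e.injective h1))

section

variable (R S : Type*) [CommRing R] [CommRing S]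
  [IsDedekindDomain R] [IsDedekindDomain S] [Algebra R S] [Module.Finite R S]
  [IsTorsionFree R S]

/-- The relative norm on nonzero ideals. -/
noncomputable def nrm (I : (Ideal S)⁰) : (Ideal R)⁰ :=
  ⟨relNorm R (I : Ideal S), by
    rw [mem_nonZeroDivisors_iff_ne_zero]
    intro h
    exact nonZeroDivisors.coe_ne_zero I ((relNorm_eq_bot_iff (R := R)).1 h)⟩

theorem nrm_mul (I J : (Ideal S)⁰) : nrm R S (I * J) = nrm R S I * nrm R S J := by
  apply Subtype.ext
  simp [nrm]

theorem nrm_wd (I J : (Ideal S)⁰) (h : ClassGroup.mk0 I = ClassGroup.mk0 J) :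
    ClassGroup.mk0 (nrm R S I) = ClassGroup.mk0 (nrm R S J) := by
  rw [ClassGroup.mk0_eq_mk0_iff] at h ⊢
  obtain ⟨x, y, hx, hy, h⟩ := h
  refine ⟨Algebra.intNorm R S x, Algebra.intNorm R S y, ?_, ?_, ?_⟩
  · intro h0
    have h1 : relNorm R (span ({x} : Set S)) = ⊥ := by
      rw [relNorm_singleton, h0]; simp
    rw [relNorm_eq_bot_iff, span_singleton_eq_bot] at h1
    exact hx h1
  · intro h0
    have h1 : relNorm R (span ({y} : Set S)) = ⊥ := by
      rw [relNorm_singleton, h0]; simp
    rw [relNorm_eq_bot_iff, span_singleton_eq_bot] at h1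
    exact hy h1
  · have h2 := congrArg (relNorm R) h
    rw [map_mul, map_mul, relNorm_singleton, relNorm_singleton] at h2
    exact h2

/-- The norm map on the class groups. -/
noncomputable def normCl : ClassGroup S →* ClassGroup R where
  toFun c := ClassGroup.mk0 (nrm R S (Function.surjInv ClassGroup.mk0_surjective c))
  map_one' := by
    have h : ClassGroup.mk0 (Function.surjInv ClassGroup.mk0_surjective (1 : ClassGroup S)) =
        ClassGroup.mk0 (1 : (Ideal S)⁰) := by
      rw [Function.surjInv_eq ClassGroup.mk0_surjective, map_one]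
    rw [nrm_wd R S _ _ h]
    have h2 : nrm R S (1 : (Ideal S)⁰) = 1 := by
      apply Subtype.ext
      simp [nrm]
    rw [h2, map_one]
  map_mul' a b := by
    rw [← map_mul, ← nrm_mul]
    apply nrm_wd
    rw [map_mul, Function.surjInv_eq ClassGroup.mk0_surjective,
      Function.surjInv_eq ClassGroup.mk0_surjective, Function.surjInv_eq ClassGroup.mk0_surjective]

theorem normCl_mk0 (I : (Ideal S)⁰) :
    normCl R S (ClassGroup.mk0 I) = ClassGroup.mk0 (nrm R S I) := by
  show ClassGroup.mk0 (nrm R S (Function.surjInv ClassGroup.mk0_surjective (ClassGroup.mk0 I))) = _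
  apply nrm_wd
  rw [Function.surjInv_eq ClassGroup.mk0_surjective]

/-- If every prime divisor of `J` is a norm then every divisor of `J` is a norm. -/
theorem norm_of_primes (J : Ideal R) (hJ : J ≠ 0)
    (h : ∀ q : Ideal R, q.IsPrime → q ∣ J → ∃ P : Ideal S, relNorm R P = q)
    (I : Ideal R) (hI : I ∣ J) : ∃ P : Ideal S, relNorm R P = I := by
  classical
  have hI0 : I ≠ 0 := fun h0 => hJ (by rw [h0] at hI; exact zero_dvd_iff.1 hI)
  induction I using UniqueFactorizationMonoid.induction_on_prime with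
  | h₁ => exact absurd rfl hI0
  | h₂ x hx =>
    refine ⟨⊤, ?_⟩
    rw [relNorm_top]
    exact (Ideal.isUnit_iff.1 hx).symm
  | h₃ a p ha hp ih =>
    obtain ⟨P, hP⟩ := ih ((dvd_mul_left a p).trans hI) ha
    obtain ⟨Q, hQ⟩ := h p (Ideal.isPrime_of_prime hp) ((dvd_mul_right p a).trans hI)
    exact ⟨Q * P, by rw [map_mul, hQ, hP]⟩

/-- Norm surjectivity when the prime divisors of suitable representatives are norms. -/
theorem normCl_surjective (J : Ideal R) (hJ : J ≠ 0)
    (hc : ∀ c : ClassGroup R, ∃ I : (Ideal R)⁰, ClassGroup.mk0 I = c ∧ (I : Ideal R) ∣ J)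
    (h : ∀ q : Ideal R, q.IsPrime → q ∣ J → ∃ P : Ideal S, relNorm R P = q) :
    Function.Surjective (normCl R S) := by
  intro c
  obtain ⟨I, rfl, hI⟩ := hc c
  obtain ⟨P, hP⟩ := norm_of_primes R S J hJ h I hI
  have hP0 : P ∈ (Ideal S)⁰ := by
    rw [mem_nonZeroDivisors_iff_ne_zero]
    rintro rfl
    apply nonZeroDivisors.coe_ne_zero I
    rw [← hP, map_zero]
  refine ⟨ClassGroup.mk0 ⟨P, hP0⟩, ?_⟩
  rw [normCl_mk0]
  congr 1
  exact Subtype.ext hP

/-- A prime `q` with `a ∈ q`, `a ∉ q²` is a norm if `(a)` is the norm of a principal ideal. -/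
theorem prime_is_norm (a : R) (θ : S) (hθ : relNorm R (span {θ}) = span {a})
    (q : Ideal R) (hq : q.IsPrime) (hq0 : q ≠ ⊥) (ha : a ∈ q) (ha2 : a ∉ q ^ 2) :
    ∃ P : Ideal S, relNorm R P = q := by
  classical
  have ha0 : a ≠ 0 := by rintro rfl; exact ha2 (zero_mem _)
  have hθ0 : span {θ} ≠ (⊥ : Ideal S) := by
    intro h
    rw [h, relNorm_bot, eq_comm, span_singleton_eq_bot] at hθ
    exact ha0 hθ
  have hqp : Prime q := Ideal.prime_of_isPrime hq0 hq
  -- a divisor of `(θ)` whose norm is divisible by `q`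
  have key : ∀ I : Ideal S, I ≠ 0 → q ∣ relNorm R I →
      ∃ P : Ideal S, P.IsPrime ∧ P ≠ ⊥ ∧ P ∣ I ∧ q ∣ relNorm R P := by
    intro I hI hqI
    induction I using UniqueFactorizationMonoid.induction_on_prime with
    | h₁ => exact absurd rfl hI
    | h₂ x hx =>
      exfalso
      rw [Ideal.isUnit_iff.1 hx, relNorm_top] at hqI
      rw [← Ideal.one_eq_top] at hqI
      exact hqp.not_unit (isUnit_of_dvd_one hqI)
    | h₃ b p hb hp ih =>
      rw [map_mul] at hqI
      rcases hqp.dvd_or_dvd hqI with h1 | h1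
      · exact ⟨p, Ideal.isPrime_of_prime hp, hp.ne_zero, dvd_mul_right p b, h1⟩
      · obtain ⟨P, h2, h3, h4, h5⟩ := ih hb h1
        exact ⟨P, h2, h3, h4.trans (dvd_mul_left b p), h5⟩
  obtain ⟨P, hP, hP0, hPθ, hqP⟩ := key (span {θ}) hθ0 (by
    rw [hθ, Ideal.dvd_span_singleton]; exact ha)
  -- the norm of `P` is a power of the prime below
  have hlo : P.LiesOver (P.under R) := ⟨rfl⟩
  have hprime : (P.under R).IsPrime := inferInstance
  obtain ⟨s, hs⟩ := exists_relNorm_eq_pow_of_isPrime (R := R) (S := S) P (P.under R)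
  have hne : P.under R ≠ ⊥ := by
    intro h
    rw [h] at hlo
    exact hP0 (eq_bot_of_liesOver_bot R P)
  have hq2 : q = P.under R := by
    rw [hs] at hqP
    have h1 := hqp.dvd_of_dvd_pow hqP
    have h2 : Prime (P.under R) := Ideal.prime_of_isPrime hne hprime
    exact (associated_iff_eq.1 ((hqp.dvd_prime_iff_associated h2).1 h1))
  rw [← hq2] at hs
  have hdiv : q ^ s ∣ span {a} := by
    rw [← hθ, ← hs]
    obtain ⟨Q, hQ⟩ := hPθ
    rw [hQ, map_mul]
    exact dvd_mul_right _ _
  have hs1 : s ≤ 1 := by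
    by_contra h
    apply ha2
    have h3 : q ^ 2 ∣ span {a} := (pow_dvd_pow q (by omega)).trans hdiv
    rwa [Ideal.dvd_span_singleton] at h3
  have hs0 : s ≠ 0 := by
    rintro rfl
    rw [hs, pow_zero] at hqP
    exact hqp.not_unit (isUnit_of_dvd_one hqP)
  have : s = 1 := by omega
  exact ⟨P, by rw [hs, this, pow_one]⟩

end

end Pool.Agent.R493.CR
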