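import Pool.Agent.R493.CR.A

set_option autoImplicit false

namespace Pool.Agent.R493.CR

open Ideal Module NumberField Polynomial UniqueFactorizationMonoid
open scoped nonZeroDivisors

/-- There are infinitely many prime ideals. -/
theorem infinite_primes (K : Type) [Field K] [NumberField K] :
    {q : Ideal (𝓞 K) | Prime q}.Infinite := by
  have h1 : ∀ p : Nat.Primes, ∃ q : Ideal (𝓞 K), Prime q ∧ q.under ℤ = span {((p : ℕ) : ℤ)} := by
    intro p
    have hp : Prime ((p : ℕ) : ℤ) := Nat.prime_iff_prime_int.1 p.2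
    have hp0 : span {((p : ℕ) : ℤ)} ≠ ⊥ := by
      rw [Ne, span_singleton_eq_bot]; exact hp.ne_zero
    have h2 : (span {((p : ℕ) : ℤ)}).IsPrime := (Ideal.span_singleton_prime hp.ne_zero).2 hp
    have h3 : (span {((p : ℕ) : ℤ)}).IsMaximal := h2.isMaximal hp0
    obtain ⟨q, hq, hlo⟩ := Ideal.exists_maximal_ideal_liesOver_of_isIntegral (S := 𝓞 K)
      (span {((p : ℕ) : ℤ)})
    refine ⟨q, Ideal.prime_of_isPrime ?_ hq.isPrime, hlo.over.symm⟩
    rintro rfl
    apply hp0
    rw [hlo.over]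
    exact Ideal.under_bot ℤ (𝓞 K)
  choose q hq1 hq2 using h1
  have hinj : Function.Injective q := by
    intro p p' h
    have h3 : span {((p : ℕ) : ℤ)} = span {((p' : ℕ) : ℤ)} := by rw [← hq2, ← hq2, h]
    rw [Ideal.span_singleton_eq_span_singleton, Int.associated_iff_natAbs] at h3
    exact Subtype.ext (by simpa using h3)
  exact Set.infinite_of_injective_forall_mem hinj hq1

/-- Ideals in given classes with separating primes. -/
theorem exists_ideals (K : Type) [Field K] [NumberField K] (n : ℕ)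
    (c : Fin n → ClassGroup (𝓞 K)) :
    ∃ (A : Fin n → (Ideal (𝓞 K))⁰) (r : Fin n → Ideal (𝓞 K)),
      (∀ i, ClassGroup.mk0 (A i) = c i) ∧ (∀ i, Prime (r i)) ∧
      ∀ i j, emultiplicity (r i) (A j : Ideal (𝓞 K)) = if i = j then 1 else 0 := by
  classical
  choose B hB using fun i => ClassGroup.mk0_surjective (c i)
  obtain ⟨J, hJ⟩ : ∃ J, J = ∏ i, B i := ⟨_, rfl⟩
  have hJ0 : (J : Ideal (𝓞 K)) ≠ 0 := nonZeroDivisors.coe_ne_zero J
  have hinf := (infinite_primes K).sdiff
    ((normalizedFactors (J : Ideal (𝓞 K))).toFinset.finite_toSet)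
  let e := hinf.natEmbedding
  let r : Fin n → Ideal (𝓞 K) := fun i => (e i : Ideal (𝓞 K))
  have hr : ∀ i, Prime (r i) := fun i => (e i).2.1
  have hrJ : ∀ i, ¬ r i ∣ (J : Ideal (𝓞 K)) := by
    intro i h
    apply (e i).2.2
    simp only [Finset.mem_coe, Multiset.mem_toFinset]
    rw [Ideal.mem_normalizedFactors_iff hJ0]
    exact ⟨Ideal.isPrime_of_prime (hr i), Ideal.dvd_iff_le.1 h⟩
  have hrne : ∀ i j, i ≠ j → r i ≠ r j := by
    intro i j hij h
    apply hij
    have := e.injective (Subtype.ext h)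
    exact Fin.ext this
  have hrB : ∀ i j, ¬ r i ∣ (B j : Ideal (𝓞 K)) := by
    intro i j h
    apply hrJ i
    have h2 : B j ∣ J := by rw [hJ]; exact Finset.dvd_prod_of_mem _ (Finset.mem_univ j)
    obtain ⟨C, hC⟩ := h2
    rw [hC]
    push_cast
    exact h.mul_right _
  -- the multipliers
  have hγ : ∀ j, ∃ γ : 𝓞 K, γ ≠ 0 ∧ ∀ i, emultiplicity (r i) (span {γ}) = if i = j then 1 else 0 := by
    intro j
    have hx : ∀ i, ∃ x : 𝓞 K, if i = j then x ∈ r i ∧ x ∉ r i ^ 2 else x = 1 := by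
      intro i
      split_ifs with h
      · obtain ⟨x, hx1, hx2⟩ := Ideal.exists_mem_pow_notMem_pow_succ (r i) (hr i).ne_zero
          (Ideal.isPrime_of_prime (hr i)).ne_top 1
        exact ⟨x, by simpa using hx1, hx2⟩
      · exact ⟨1, rfl⟩
    choose x hx using hx
    obtain ⟨y, hy⟩ := IsDedekindDomain.exists_forall_sub_mem_ideal (s := Finset.univ) r
      (fun _ => 2) (fun i _ => hr i) (fun i _ k _ hik => hrne i k hik) (fun i => x i)
    have hy' : ∀ i, y - x i ∈ r i ^ 2 := fun i => hy i (Finset.mem_univ i)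
    have hle : ∀ i, r i ^ 2 ≤ r i := fun i => Ideal.pow_le_self two_ne_zero
    have hyj : y ∈ r j ∧ y ∉ r j ^ 2 := by
      have h1 := hx j
      rw [if_pos rfl] at h1
      constructor
      · have := (r j).add_mem (hle j (hy' j)) h1.1
        simpa using this
      · intro h
        apply h1.2
        have := (r j ^ 2).sub_mem h (hy' j)
        simpa using this
    refine ⟨y, ?_, ?_⟩
    · rintro rfl
      exact hyj.2 (zero_mem _)
    · intro i
      split_ifs with h
      · subst h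
        have : ((1 : ℕ) : ℕ∞) = 1 := rfl
        rw [← this, emultiplicity_eq_coe]
        constructor
        · rw [pow_one, Ideal.dvd_span_singleton]; exact hyj.1
        · rw [Ideal.dvd_span_singleton]; exact hyj.2
      · rw [emultiplicity_eq_zero, Ideal.dvd_span_singleton]
        intro hyi
        have h1 := hx i
        rw [if_neg h] at h1
        have h2 := (r i).sub_mem hyi (hle i (hy' i))
        rw [h1, sub_sub_cancel] at h2
        exact (Ideal.isPrime_of_prime (hr i)).ne_top ((Ideal.eq_top_iff_one _).2 h2)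
  choose γ hγ0 hγ using hγ
  have hspan : ∀ j, span {γ j} ∈ (Ideal (𝓞 K))⁰ := by
    intro j
    rw [mem_nonZeroDivisors_iff_ne_zero, Ideal.zero_eq_bot, Ne, span_singleton_eq_bot]
    exact hγ0 j
  refine ⟨fun j => ⟨span {γ j}, hspan j⟩ * B j, r, ?_, hr, ?_⟩
  · intro j
    rw [map_mul, hB]
    have : ClassGroup.mk0 (⟨span {γ j}, hspan j⟩ : (Ideal (𝓞 K))⁰) = 1 := by
      rw [ClassGroup.mk0_eq_one_iff]
      exact ⟨⟨γ j, rfl⟩⟩
    rw [this, one_mul]
  · intro i j
    push_cast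
    rw [emultiplicity_mul (hr i)]
    have h1 : emultiplicity (r i) (B j : Ideal (𝓞 K)) = 0 := emultiplicity_eq_zero.2 (hrB i j)
    rw [h1, add_zero]
    exact hγ j i

/-- Adjoining an `l`-th root of an element which is exactly divisible by a prime. -/
theorem exists_ext_of (K : Type) [Field K] [NumberField K] (l : ℕ) (hl : l ≠ 0) (a : 𝓞 K)
    (q0 : Ideal (𝓞 K)) (hq0p : q0.IsPrime) (ha1 : a ∈ q0) (ha2 : a ∉ q0 ^ 2) :
    ∃ (L : Type) (_ : Field L) (_ : NumberField L) (_ : Algebra K L), finrank K L = l ∧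
      ∃ θ : 𝓞 L, θ ^ l = algebraMap (𝓞 K) (𝓞 L) a := by
  classical
  have hmon : (X ^ l - C a : (𝓞 K)[X]).Monic := monic_X_pow_sub_C a hl
  have hdeg : (X ^ l - C a : (𝓞 K)[X]).natDegree = l := natDegree_X_pow_sub_C
  have hE : (X ^ l - C a : (𝓞 K)[X]).IsEisensteinAt q0 := by
    refine ⟨?_, ?_, ?_⟩
    · rw [hmon.leadingCoeff]
      intro h
      exact hq0p.ne_top ((Ideal.eq_top_iff_one _).2 h)
    · intro k hk
      rw [hdeg] at hk
      rw [coeff_sub, coeff_X_pow, if_neg (by omega), coeff_C, zero_sub]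
      split_ifs
      · exact q0.neg_mem ha1
      · simp
    · rw [coeff_sub, coeff_X_pow, if_neg (by omega), coeff_C_zero, zero_sub]
      intro h
      exact ha2 (by simpa using (q0 ^ 2).neg_mem h)
  have hirr : Irreducible (X ^ l - C a : (𝓞 K)[X]) :=
    hE.irreducible hq0p hmon.isPrimitive (by rw [hdeg]; omega)
  have hirr2 : Irreducible ((X ^ l - C a : (𝓞 K)[X]).map (algebraMap (𝓞 K) K)) :=
    (hmon.irreducible_iff_irreducible_map_fraction_map).1 hirr
  obtain ⟨g, hg⟩ : ∃ g : K[X], g = (X ^ l - C a : (𝓞 K)[X]).map (algebraMap (𝓞 K) K) := ⟨_, rfl⟩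
  rw [← hg] at hirr2
  have hfact : Fact (Irreducible g) := ⟨hirr2⟩
  have hgdeg : g.natDegree = l := by
    rw [hg, hmon.natDegree_map, hdeg]
  have hfin : finrank K (AdjoinRoot g) = l := by
    rw [(AdjoinRoot.powerBasis hirr2.ne_zero).finrank, AdjoinRoot.powerBasis_dim, hgdeg]
  have hfd : FiniteDimensional K (AdjoinRoot g) :=
    FiniteDimensional.of_finrank_pos (by rw [hfin]; omega)
  have hcz : CharZero (AdjoinRoot g) := charZero_of_injective_algebraMap
    (algebraMap K (AdjoinRoot g)).injective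
  have hfdq : FiniteDimensional ℚ (AdjoinRoot g) := Module.Finite.trans K (AdjoinRoot g)
  have hnf : NumberField (AdjoinRoot g) := { to_charZero := hcz, to_finiteDimensional := hfdq }
  have hroot : (AdjoinRoot.root g) ^ l = algebraMap K (AdjoinRoot g) (algebraMap (𝓞 K) K a) := by
    have h1 := AdjoinRoot.eval₂_root g
    conv at h1 => lhs; arg 3; rw [hg]
    rw [Polynomial.map_sub, Polynomial.map_pow, map_X, map_C, eval₂_sub, eval₂_pow, eval₂_X,
      eval₂_C, sub_eq_zero] at h1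
    exact h1
  have hint : IsIntegral ℤ (AdjoinRoot.root g) := by
    apply IsIntegral.of_pow (Nat.pos_of_ne_zero hl)
    rw [hroot]
    exact (a.isIntegral_coe).algebraMap
  obtain ⟨θ, hθ⟩ : ∃ θ : 𝓞 (AdjoinRoot g), algebraMap (𝓞 (AdjoinRoot g)) (AdjoinRoot g) θ =
      AdjoinRoot.root g := ⟨⟨_, hint⟩, rfl⟩
  refine ⟨AdjoinRoot g, inferInstance, hnf, inferInstance, hfin, θ, ?_⟩
  apply FaithfulSMul.algebraMap_injective (𝓞 (AdjoinRoot g)) (AdjoinRoot g)
  rw [map_pow, hθ, hroot, ← IsScalarTower.algebraMap_apply, ← IsScalarTower.algebraMap_apply]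

/-- An extension of degree `l` which is totally ramified at the primes dividing `J`. -/
theorem exists_ext (K : Type) [Field K] [NumberField K] (l : ℕ) (hl : l ≠ 0) (J : Ideal (𝓞 K))
    (hJ : J ≠ 0) :
    ∃ (L : Type) (_ : Field L) (_ : NumberField L) (_ : Algebra K L), finrank K L = l ∧
      ∃ (θ : 𝓞 L) (a : 𝓞 K), θ ^ l = algebraMap (𝓞 K) (𝓞 L) a ∧
        ∀ q : Ideal (𝓞 K), q.IsPrime → q ∣ J → a ∈ q ∧ a ∉ q ^ 2 := by
  classical
  obtain ⟨q0, hq0⟩ := (infinite_primes K).nonempty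
  have hq0' : Prime q0 := hq0
  have hJ' : J * q0 ≠ 0 := mul_ne_zero hJ hq0'.ne_zero
  obtain ⟨s, hs⟩ : ∃ s : Finset (Ideal (𝓞 K)), s = (normalizedFactors (J * q0)).toFinset :=
    ⟨_, rfl⟩
  have hsmem : ∀ q, q ∈ s ↔ q.IsPrime ∧ q ∣ J * q0 := by
    intro q
    rw [hs, Multiset.mem_toFinset, Ideal.mem_normalizedFactors_iff hJ', Ideal.dvd_iff_le]
  have hsp : ∀ q ∈ s, Prime q := by
    intro q hq
    rw [hs, Multiset.mem_toFinset] at hq
    exact prime_of_normalized_factor q hq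
  have hx : ∀ q : s, ∃ x : 𝓞 K, x ∈ (q : Ideal (𝓞 K)) ∧ x ∉ (q : Ideal (𝓞 K)) ^ 2 := by
    intro q
    obtain ⟨x, hx1, hx2⟩ := Ideal.exists_mem_pow_notMem_pow_succ (q : Ideal (𝓞 K))
      (hsp q q.2).ne_zero (Ideal.isPrime_of_prime (hsp q q.2)).ne_top 1
    exact ⟨x, by simpa using hx1, hx2⟩
  choose x hx1 hx2 using hx
  obtain ⟨a, ha⟩ := IsDedekindDomain.exists_forall_sub_mem_ideal (s := s) (fun q => q)
    (fun _ => 2) (fun q hq => hsp q hq) (fun q _ q' _ h => h) x
  have haq : ∀ q ∈ s, a ∈ q ∧ a ∉ q ^ 2 := by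
    intro q hq
    have h1 := ha q hq
    have h2 := hx1 ⟨q, hq⟩
    have h3 := hx2 ⟨q, hq⟩
    constructor
    · have := q.add_mem (Ideal.pow_le_self two_ne_zero h1) h2
      simpa using this
    · intro h
      apply h3
      have := (q ^ 2).sub_mem h h1
      simpa using this
  have hq0s : q0 ∈ s := (hsmem q0).2 ⟨Ideal.isPrime_of_prime hq0', dvd_mul_left _ _⟩
  obtain ⟨L, i1, i2, i3, hd, θ, hθ⟩ := exists_ext_of K l hl a q0 (Ideal.isPrime_of_prime hq0')
    (haq q0 hq0s).1 (haq q0 hq0s).2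
  refine ⟨L, i1, i2, i3, hd, θ, a, hθ, ?_⟩
  intro q hq hqJ
  exact haq q ((hsmem q).2 ⟨hq, hqJ.mul_right _⟩)

end Pool.Agent.R493.CR
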