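import Pool.Agent.R493.CR.M
import Pool.Agent.R493.CR.E

set_option autoImplicit false

namespace Pool.Agent.R493.CR

open Ideal Module NumberField
open scoped nonZeroDivisors

/-- `S(d, m)`: for every `R` some number field of degree `d` has a class group containing a copy
of `(ℤ/m)^R`. -/
def S (d m : ℕ) : Prop :=
  ∀ R : ℕ, ∃ (K : Type) (_ : Field K) (_ : NumberField K), finrank ℚ K = d ∧
    ∃ f : Multiplicative (Fin R → ZMod m) →* ClassGroup (𝓞 K), Function.Injective f

/-- The closure rule for prime multipliers. -/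
theorem closure_prime {d m l : ℕ} (hm : m ≠ 0) (hl : l.Prime) (h : S d m) :
    S (d * l) (m * l) := by
  classical
  intro R0
  obtain ⟨b, hb⟩ : ∃ b, b = l * l ^ (d * l) := ⟨_, rfl⟩
  obtain ⟨K, hK1, hK2, hKd, f, hf⟩ := h (R0 + b)
  have : NeZero m := ⟨hm⟩
  have : NeZero (m * l) := ⟨mul_ne_zero hm hl.ne_zero⟩
  obtain ⟨c, hc⟩ : ∃ c : Fin (R0 + b) → ClassGroup (𝓞 K),
      c = fun i => f (Multiplicative.ofAdd (Pi.single i 1)) := ⟨_, rfl⟩
  obtain ⟨A, r, hAc, hr, hrA⟩ := exists_ideals K (R0 + b) c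
  have hJ0 : ∏ i, (A i : Ideal (𝓞 K)) ≠ 0 :=
    Finset.prod_ne_zero_iff.2 fun i _ => nonZeroDivisors.coe_ne_zero (A i)
  obtain ⟨L, hL1, hL2, hKL, hd, θ, a, hθ, ha⟩ := exists_ext K l hl.ne_zero
    (∏ i, (A i : Ideal (𝓞 K))) hJ0
  have hP : ∀ i, ∃ P : (Ideal (𝓞 L))⁰,
      (P : Ideal (𝓞 L)) ^ l = (A i : Ideal (𝓞 K)).map (algebraMap (𝓞 K) (𝓞 L)) := by
    intro i
    obtain ⟨P, hP⟩ := exists_root_all (S := 𝓞 L) l hl.ne_zero θ a hθ (A i : Ideal (𝓞 K))
      (nonZeroDivisors.coe_ne_zero (A i))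
      (fun q hq hqA => ha q hq (hqA.trans (Finset.dvd_prod_of_mem _ (Finset.mem_univ i))))
    refine ⟨⟨P, ?_⟩, hP⟩
    rw [mem_nonZeroDivisors_iff_ne_zero]
    rintro rfl
    rw [zero_pow hl.ne_zero, eq_comm, Ideal.zero_eq_bot,
      Ideal.map_eq_bot_iff_of_injective (FaithfulSMul.algebraMap_injective (𝓞 K) (𝓞 L))] at hP
    exact nonZeroDivisors.coe_ne_zero (A i) hP
  choose P hP using hP
  have hsum : ∀ v : Fin (R0 + b) → ℤ, ∏ i, (ClassGroup.mk0 (A i)) ^ (v i) =
      f (Multiplicative.ofAdd (fun i => (v i : ZMod m))) := by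
    intro v
    have h1 : (fun i => (v i : ZMod m)) = ∑ i, v i • (Pi.single i 1 : Fin (R0 + b) → ZMod m) := by
      funext j
      rw [Finset.sum_apply, Finset.sum_eq_single j]
      · simp
      · intro k _ hk
        simp [Pi.single_eq_of_ne hk.symm]
      · intro h; exact absurd (Finset.mem_univ j) h
    rw [h1, ofAdd_sum, map_prod]
    refine Finset.prod_congr rfl fun i _ => ?_
    rw [hAc, hc, ofAdd_zsmul, map_zpow]
  have hA : ∀ i, (ClassGroup.mk0 (A i)) ^ m = 1 := by
    intro i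
    rw [hAc, hc]
    simp only
    rw [← map_pow, ← ofAdd_nsmul]
    have : m • (Pi.single i 1 : Fin (R0 + b) → ZMod m) = 0 := by
      funext j
      simp
    rw [this, ofAdd_zero, map_one]
  have hind : ∀ v : Fin (R0 + b) → ℤ, ∏ i, (ClassGroup.mk0 (A i)) ^ (v i) = 1 →
      ∀ i, (m : ℤ) ∣ v i := by
    intro v hv i
    rw [hsum, ← map_one f] at hv
    have h1 := hf hv
    have h2 : (fun i => (v i : ZMod m)) = 0 := by
      have := congrArg Multiplicative.toAdd h1
      simpa using this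
    have h3 := congrFun h2 i
    simpa [ZMod.intCast_zmod_eq_zero_iff_dvd] using h3
  obtain ⟨g, -, hg⟩ := kernel_bound K L hl hm hd A P hP hA hind r hr hrA
  have hdeg : finrank ℚ L = d * l := by
    rw [← hKd, ← hd]
    exact (finrank_mul_finrank ℚ K L).symm
  rw [hdeg, ← hb] at hg
  have hEx := exists_inj_of_card_ker (m * l) b (R0 + b) g (hg.trans (Nat.lt_two_pow_self).le)
  rw [Nat.add_sub_cancel] at hEx
  obtain ⟨F, hF⟩ := hEx
  refine ⟨L, hL1, hL2, hdeg, { toFun := fun x => (F x.toAdd).toMul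
                               map_one' := by simp
                               map_mul' := by intro x y; simp }, ?_⟩
  intro x y hxy
  exact Multiplicative.toAdd.injective (hF (Additive.toMul.injective hxy))

/-- **The closure rule.** -/
theorem closure {m k : ℕ} (hm : m ≠ 0) (hk : k ≠ 0) : ∀ {d : ℕ}, S d m → S (d * k) (m * k) := by
  induction k using Nat.recOnMul generalizing m with
  | zero => exact absurd rfl hk
  | one => intro d h; simpa using h
  | prime p hp => intro d h; exact closure_prime hm hp h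
  | mul a b iha ihb =>
    intro d h
    have ha : a ≠ 0 := fun h0 => hk (by rw [h0, zero_mul])
    have hb : b ≠ 0 := fun h0 => hk (by rw [h0, mul_zero])
    have h1 := ihb (mul_ne_zero hm ha) hb (iha hm ha h)
    rwa [mul_assoc, mul_assoc] at h1

/-- Monotonicity in `m`. -/
theorem mono {d m m' : ℕ} (hm : m ≠ 0) (hdvd : m' ∣ m) (h : S d m) : S d m' := by
  intro R
  obtain ⟨K, h1, h2, hd, f, hf⟩ := h R
  obtain ⟨t, rfl⟩ := hdvd
  have hm' : m' ≠ 0 := fun h0 => hm (by rw [h0, zero_mul])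
  have ht : t ≠ 0 := fun h0 => hm (by rw [h0, mul_zero])
  have : NeZero m' := ⟨hm'⟩
  obtain ⟨g, hg⟩ : ∃ g : ZMod m' →+ ZMod (m' * t), ∀ a : ℤ, g (a : ZMod m') = ((a * t : ℤ) : ZMod (m' * t)) := by
    refine ⟨ZMod.lift m' ⟨zmultiplesHom (ZMod (m' * t)) (t : ZMod (m' * t)), ?_⟩, ?_⟩
    · have h6 : ((m' * t : ℕ) : ZMod (m' * t)) = 0 := ZMod.natCast_self _
      rw [Nat.cast_mul] at h6
      simp only [zmultiplesHom_apply, natCast_zsmul, nsmul_eq_mul]
      exact h6
    · intro a
      rw [ZMod.lift_coe]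
      simp
  have hginj : Function.Injective g := by
    rw [injective_iff_map_eq_zero]
    intro a ha
    obtain ⟨z, rfl⟩ := ZMod.intCast_surjective a
    rw [hg, ZMod.intCast_zmod_eq_zero_iff_dvd] at ha
    rw [ZMod.intCast_zmod_eq_zero_iff_dvd]
    push_cast at ha
    exact (mul_dvd_mul_iff_right (by exact_mod_cast ht)).1 ha
  let G : (Fin R → ZMod m') →+ (Fin R → ZMod (m' * t)) :=
    { toFun := fun v i => g (v i)
      map_zero' := by funext i; simp
      map_add' := by intro v w; funext i; simp }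
  refine ⟨K, h1, h2, hd, f.comp G.toMultiplicative, ?_⟩
  intro x y hxy
  have h3 : G.toMultiplicative x = G.toMultiplicative y := hf hxy
  have h4 : G x.toAdd = G y.toAdd := congrArg Multiplicative.toAdd h3
  have h5 : x.toAdd = y.toAdd := by
    funext i
    exact hginj (congrFun h4 i)
  exact Multiplicative.toAdd.injective h5

theorem reduction : (∀ d, 1 < d → ∀ m, 1 < m → S d m) ↔ ∀ l : ℕ, l.Prime → ∀ m, 1 < m → S l m := by
  constructor
  · intro h l hl m hm
    exact h l hl.one_lt m hm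
  · intro h d hd m hm
    obtain ⟨k, hk⟩ := Nat.minFac_dvd d
    have hp := Nat.minFac_prime (by omega : d ≠ 1)
    have hk0 : k ≠ 0 := by
      rintro rfl
      rw [mul_zero] at hk
      omega
    have h1 := closure (by omega : m ≠ 0) hk0 (h _ hp m hm)
    rw [← hk] at h1
    exact mono (mul_ne_zero (by omega) hk0) (dvd_mul_right m k) h1

end Pool.Agent.R493.CR
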