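import Mathlib

set_option autoImplicit false

namespace Pool.Agent.R493.CR

/-- Extension by zero of vectors. -/
theorem exists_extend (n : ℕ) {R' R : ℕ} (h : R' ≤ R) :
    ∃ f : (Fin R' → ZMod n) →+ (Fin R → ZMod n), Function.Injective f := by
  refine ⟨{ toFun := fun v j => if hj : (j : ℕ) < R' then v ⟨j, hj⟩ else 0
            map_zero' := by funext j; simp
            map_add' := by intro a b; funext j; by_cases hj : (j : ℕ) < R' <;> simp [hj] }, ?_⟩
  intro a b hab
  funext i
  have := congrFun hab ⟨i, i.2.trans_le h⟩
  simpa using this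

/-- A homomorphism of `(ℤ/n)^R` with kernel of order at most `2^b` gives an embedding of
`(ℤ/n)^(R-b)`. -/
theorem exists_inj_of_card_ker (n : ℕ) [NeZero n] {G : Type*} [AddCommGroup G] :
    ∀ (b R : ℕ) (g : (Fin R → ZMod n) →+ G), Nat.card g.ker ≤ 2 ^ b →
      ∃ f : (Fin (R - b) → ZMod n) →+ G, Function.Injective f := by
  intro b
  induction b with
  | zero =>
    intro R g hg
    refine ⟨g, ?_⟩
    rw [← AddMonoidHom.ker_eq_bot_iff]
    exact AddSubgroup.eq_bot_of_card_le _ (by simpa using hg)
  | succ b ih =>
    intro R g hg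
    by_cases hk : g.ker = ⊥
    · obtain ⟨f, hf⟩ := exists_extend n (Nat.sub_le R (b + 1))
      refine ⟨g.comp f, ?_⟩
      rw [AddMonoidHom.ker_eq_bot_iff] at hk
      exact hk.comp hf
    · obtain ⟨l0, hl00⟩ := AddSubgroup.ne_bot_iff_exists_ne_zero.1 hk
      obtain ⟨l, hl⟩ := l0
      have hl0' : (l : Fin R → ZMod n) ≠ 0 := fun h => hl00 (Subtype.ext h)
      obtain ⟨j, hj⟩ := Function.ne_iff.1 hl0'
      obtain ⟨R', rfl⟩ : ∃ R', R = R' + 1 := ⟨R - 1, by have := j.2; omega⟩
      let e : (Fin R' → ZMod n) →+ (Fin (R' + 1) → ZMod n) :=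
        { toFun := fun v => j.insertNth 0 v
          map_zero' := by
            funext i
            refine Fin.succAboveCases j ?_ (fun i => ?_) i <;> simp
          map_add' := by
            intro v w
            funext i
            refine Fin.succAboveCases j ?_ (fun i => ?_) i <;> simp }
      have he1 : ∀ v, e v j = 0 := fun v => by simp [e]
      have he2 : ∀ v i, e v (j.succAbove i) = v i := fun v i => by simp [e]
      have hcard : 2 * Nat.card (g.comp e).ker ≤ Nat.card g.ker := by
        have hinj : Function.Injective (fun x : Bool × (g.comp e).ker =>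
            (⟨e x.2 + (if x.1 then (l : Fin (R' + 1) → ZMod n) else 0), by
              rw [AddMonoidHom.mem_ker, map_add]
              have h1 : g (e x.2) = 0 := x.2.2
              rw [h1, zero_add]
              split_ifs
              · exact hl
              · exact map_zero g⟩ : g.ker)) := by
          rintro ⟨x, v⟩ ⟨y, w⟩ hxy
          have h0 := congrArg Subtype.val hxy
          have h1 := congrFun h0 j
          simp only [Pi.add_apply, he1, zero_add] at h1
          have hxy' : x = y := by
            cases x <;> cases y <;> simp at h1 ⊢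
            · exact hj h1.symm
            · exact hj h1
          subst hxy'
          refine Prod.ext rfl (Subtype.ext ?_)
          funext i
          have h2 := congrFun h0 (j.succAbove i)
          simp only [Pi.add_apply, he2] at h2
          exact add_right_cancel h2
        have := Nat.card_le_card_of_injective _ hinj
        rwa [Nat.card_prod, Nat.card_eq_fintype_card, Fintype.card_bool] at this
      obtain ⟨f, hf⟩ := ih R' (g.comp e) (by rw [pow_succ] at hg; omega)
      have hR : R' + 1 - (b + 1) = R' - b := by omega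
      rw [hR]
      exact ⟨f, hf⟩

/-- The homomorphism of `(ℤ/n)^R` given by elements of order dividing `n`. -/
theorem exists_hom (n : ℕ) {G : Type*} [AddCommGroup G] {R : ℕ} (x : Fin R → G)
    (hx : ∀ i, n • x i = 0) :
    ∃ g : (Fin R → ZMod n) →+ G, ∀ v : Fin R → ℤ, g (fun i => (v i : ZMod n)) = ∑ i, v i • x i := by
  classical
  have hi : ∀ i, ∃ g : ZMod n →+ G, ∀ a : ℤ, g (a : ZMod n) = a • x i := by
    intro i
    refine ⟨ZMod.lift n ⟨zmultiplesHom G (x i), ?_⟩, ?_⟩
    · simpa using hx i
    · intro a
      rw [ZMod.lift_coe]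
      simp
  choose g hg using hi
  refine ⟨∑ i, (g i).comp (Pi.evalAddMonoidHom _ i), ?_⟩
  intro v
  rw [AddMonoidHom.finsetSum_apply]
  refine Finset.sum_congr rfl fun i _ => ?_
  simp [hg]

end Pool.Agent.R493.CR
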