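import Pool.Agent.R493.CR.A

set_option autoImplicit false

namespace Pool.Agent.R493.CR

open Ideal Module
open scoped nonZeroDivisors

section

variable {R S : Type*} [CommRing R] [CommRing S]
  [IsDedekindDomain R] [IsDedekindDomain S] [Algebra R S] [Module.Finite R S]
  [IsTorsionFree R S]

/-- `(I ⊔ J)^n = I^n ⊔ J^n` in a Dedekind domain. -/
theorem sup_pow' (I J : Ideal S) (n : ℕ) (h0 : I ⊔ J ≠ 0) : (I ⊔ J) ^ n = I ^ n ⊔ J ^ n := by
  classical
  obtain ⟨D, hD⟩ : ∃ D, D = I ⊔ J := ⟨_, rfl⟩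
  have h1 : D ∣ I := Ideal.dvd_iff_le.2 (by rw [hD]; exact le_sup_left)
  have h2 : D ∣ J := Ideal.dvd_iff_le.2 (by rw [hD]; exact le_sup_right)
  obtain ⟨I', hI'⟩ := h1
  obtain ⟨J', hJ'⟩ := h2
  have h3 : D * (I' ⊔ J') = D * 1 := by
    rw [Ideal.mul_sup, ← hI', ← hJ', ← hD, mul_one]
  have h4 : I' ⊔ J' = 1 := mul_left_cancel₀ (by rw [hD]; exact h0) h3
  have h5 : IsCoprime I' J' := Ideal.isCoprime_iff_sup_eq.2 (by rw [h4, Ideal.one_eq_top])
  have h6 : I' ^ n ⊔ J' ^ n = ⊤ := Ideal.isCoprime_iff_sup_eq.1 h5.pow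
  rw [← hD, hI', hJ', mul_pow, mul_pow, ← Ideal.mul_sup, h6, ← Ideal.one_eq_top, mul_one]

theorem sup_prime_pow (q : Ideal R) (hq : q.IsPrime) (hq0 : q ≠ ⊥) (a : R) (ha : a ∈ q)
    (ha2 : a ∉ q ^ 2) (l : ℕ) (hl : l ≠ 0) : span {a} ⊔ q ^ l = q := by
  have hqp : Prime q := Ideal.prime_of_isPrime hq0 hq
  have h1 : (span {a} ⊔ q ^ l) ∣ q ^ l := Ideal.dvd_iff_le.2 le_sup_right
  obtain ⟨s, hs, h2⟩ := (dvd_prime_pow hqp l).1 h1
  rw [associated_iff_eq] at h2
  have h3 : a ∈ q ^ s := by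
    rw [← h2]
    exact Ideal.mem_sup_left (Ideal.mem_span_singleton_self a)
  have h4 : s ≤ 1 := by
    by_contra h
    exact ha2 (Ideal.pow_le_pow_right (by omega : 2 ≤ s) h3)
  apply le_antisymm
  · apply sup_le
    · rwa [Ideal.span_singleton_le_iff_mem]
    · exact Ideal.pow_le_self hl
  · rw [h2]
    calc q = q ^ 1 := (pow_one q).symm
      _ ≤ q ^ s := Ideal.pow_le_pow_right h4

theorem exists_root (l : ℕ) (hl : l ≠ 0) (θ : S) (a : R) (hθ : θ ^ l = algebraMap R S a)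
    (q : Ideal R) (hq : q.IsPrime) (hq0 : q ≠ ⊥) (ha : a ∈ q) (ha2 : a ∉ q ^ 2) :
    ∃ Q : Ideal S, Q ^ l = q.map (algebraMap R S) := by
  refine ⟨span {θ} ⊔ q.map (algebraMap R S), ?_⟩
  have hne : span {θ} ⊔ q.map (algebraMap R S) ≠ 0 := by
    intro h
    have h1 : q.map (algebraMap R S) ≤ ⊥ := by
      rw [← Ideal.zero_eq_bot, ← h]
      exact le_sup_right
    rw [le_bot_iff, Ideal.map_eq_bot_iff_of_injective
      (FaithfulSMul.algebraMap_injective R S)] at h1
    exact hq0 h1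
  rw [sup_pow' _ _ _ hne, Ideal.span_singleton_pow, hθ, ← Ideal.map_pow]
  have h2 : span {algebraMap R S a} = (span {a}).map (algebraMap R S) := by
    rw [Ideal.map_span, Set.image_singleton]
  rw [h2, ← Ideal.map_sup, sup_prime_pow q hq hq0 a ha ha2 l hl]

theorem exists_root_all (l : ℕ) (hl : l ≠ 0) (θ : S) (a : R) (hθ : θ ^ l = algebraMap R S a)
    (A : Ideal R) (hA : A ≠ 0) (h : ∀ q : Ideal R, q.IsPrime → q ∣ A → a ∈ q ∧ a ∉ q ^ 2) :
    ∃ P : Ideal S, P ^ l = A.map (algebraMap R S) := by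
  classical
  induction A using UniqueFactorizationMonoid.induction_on_prime with
  | h₁ => exact absurd rfl hA
  | h₂ x hx =>
    refine ⟨⊤, ?_⟩
    rw [Ideal.isUnit_iff.1 hx, Ideal.map_top, ← Ideal.one_eq_top, one_pow]
  | h₃ b p hb hp ih =>
    obtain ⟨P, hP⟩ := ih hb (fun q hq hqb => h q hq (hqb.trans (dvd_mul_left b p)))
    obtain ⟨h1, h2⟩ := h p (Ideal.isPrime_of_prime hp) (dvd_mul_right p b)
    obtain ⟨Q, hQ⟩ := exists_root l hl θ a hθ p (Ideal.isPrime_of_prime hp) hp.ne_zero h1 h2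
    exact ⟨Q * P, by rw [mul_pow, hQ, hP, Ideal.map_mul]⟩

theorem relNorm_root (l : ℕ) (hl : l ≠ 0) (hd : finrank R S = l) (A : Ideal R) (P : Ideal S)
    (hP : P ^ l = A.map (algebraMap R S)) : relNorm R P = A := by
  have h1 := congrArg (relNorm R) hP
  rw [map_pow, relNorm_algebraMap, hd] at h1
  exact (pow_left_inj hl).1 h1

end

/-- Equality of exponents from an equality of ideals. -/
theorem exponents_eq {R : Type*} [CommRing R] [IsDedekindDomain R] {l m n : ℕ} (hl : l.Prime)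
    (A : Fin n → (Ideal R)⁰)
    (hind : ∀ v : Fin n → ℤ, ∏ i, (ClassGroup.mk0 (A i)) ^ (v i) = 1 → ∀ i, (m : ℤ) ∣ v i)
    (hm : m ≠ 0) (r : Fin n → Ideal R) (hr : ∀ i, Prime (r i))
    (hrA : ∀ i j, emultiplicity (r i) (A j : Ideal R) = if i = j then 1 else 0)
    (c1 c2 : R) (h1 : c1 ≠ 0) (h2 : c2 ≠ 0) (a b : Fin n → ℕ) (ha : ∀ i, a i < l)
    (hb : ∀ i, b i < l)
    (h : span {c1} ^ l * ∏ i, (A i : Ideal R) ^ (m * b i) =
      span {c2} ^ l * ∏ i, (A i : Ideal R) ^ (m * a i)) : a = b := by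
  classical
  have hsmall : ∀ i, ((l : ℤ) ∣ (a i : ℤ) - b i) → a i = b i := by
    intro i hi
    have e1 := ha i
    have e2 := hb i
    have h3 : (a i : ℤ) - b i = 0 := by
      apply Int.eq_zero_of_abs_lt_dvd hi
      rw [abs_lt]
      constructor <;> omega
    omega
  have hs1 : span {c1} ≠ (0 : Ideal R) := by
    rw [Ideal.zero_eq_bot, Ne, span_singleton_eq_bot]; exact h1
  have hs2 : span {c2} ≠ (0 : Ideal R) := by
    rw [Ideal.zero_eq_bot, Ne, span_singleton_eq_bot]; exact h2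
  by_cases hlm : l ∣ m
  · obtain ⟨k, hk⟩ := hlm
    have e1 : ∀ e : Fin n → ℕ, ∏ i, (A i : Ideal R) ^ (m * e i) =
        (∏ i, (A i : Ideal R) ^ (k * e i)) ^ l := by
      intro e
      rw [← Finset.prod_pow]
      refine Finset.prod_congr rfl fun i _ => ?_
      rw [← pow_mul, hk]
      congr 1
      ring
    rw [e1, e1, ← mul_pow, ← mul_pow, pow_left_inj hl.ne_zero] at h
    have e2 : ClassGroup.mk0 (∏ i, A i ^ (k * b i)) = ClassGroup.mk0 (∏ i, A i ^ (k * a i)) := by
      rw [ClassGroup.mk0_eq_mk0_iff]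
      refine ⟨c1, c2, h1, h2, ?_⟩
      push_cast
      exact h
    rw [map_prod, map_prod] at e2
    simp only [map_pow] at e2
    have e3 : ∏ i, (ClassGroup.mk0 (A i)) ^ (((k * a i : ℕ) : ℤ) - ((k * b i : ℕ) : ℤ)) = 1 := by
      simp only [zpow_sub, zpow_natCast]
      rw [Finset.prod_mul_distrib, Finset.prod_inv_distrib, e2, mul_inv_cancel]
    have e4 := hind _ e3
    funext i
    apply hsmall
    have e5 := e4 i
    rw [hk] at e5
    push_cast at e5
    have hk0 : (k : ℤ) ≠ 0 := by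
      rintro h0
      apply hm
      rw [hk]
      have : k = 0 := by exact_mod_cast h0
      rw [this, mul_zero]
    have e6 : (k : ℤ) * l ∣ k * ((a i : ℤ) - b i) := by
      rw [mul_comm (k : ℤ) l, mul_sub]
      exact e5
    exact (mul_dvd_mul_iff_left hk0).1 e6
  · funext i
    apply hsmall
    have e1 := congrArg (emultiplicity (r i)) h
    have e2 : ∀ e : Fin n → ℕ, emultiplicity (r i) (∏ j, (A j : Ideal R) ^ (m * e j)) =
        ((m * e i : ℕ) : ℕ∞) := by
      intro e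
      rw [Finset.emultiplicity_prod (hr i)]
      rw [Finset.sum_eq_single i]
      · rw [emultiplicity_pow (hr i), hrA, if_pos rfl, mul_one]
      · intro j _ hj
        rw [emultiplicity_pow (hr i), hrA, if_neg (Ne.symm hj), mul_zero]
      · intro h; exact absurd (Finset.mem_univ i) h
    rw [emultiplicity_mul (hr i), emultiplicity_mul (hr i), e2, e2, emultiplicity_pow (hr i),
      emultiplicity_pow (hr i)] at e1
    have f1 : FiniteMultiplicity (r i) (span {c1}) := FiniteMultiplicity.of_prime_left (hr i) hs1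
    have f2 : FiniteMultiplicity (r i) (span {c2}) := FiniteMultiplicity.of_prime_left (hr i) hs2
    rw [f1.emultiplicity_eq_multiplicity, f2.emultiplicity_eq_multiplicity] at e1
    have e3 : l * multiplicity (r i) (span {c1}) + m * b i =
        l * multiplicity (r i) (span {c2}) + m * a i := by exact_mod_cast e1
    have e4 : (l : ℤ) ∣ m * ((a i : ℤ) - b i) := by
      refine ⟨(multiplicity (r i) (span {c1}) : ℤ) - multiplicity (r i) (span {c2}), ?_⟩
      have e5 : (l : ℤ) * multiplicity (r i) (span {c1}) + m * b i =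
        l * multiplicity (r i) (span {c2}) + m * a i := by exact_mod_cast e3
      linear_combination -e5
    have hlz : Prime (l : ℤ) := Nat.prime_iff_prime_int.1 hl
    rcases hlz.dvd_or_dvd e4 with h5 | h5
    · exact absurd (by exact_mod_cast h5) hlm
    · exact h5

end Pool.Agent.R493.CR
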