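import Mathlib

set_option autoImplicit false

namespace Pool.Agent.R493.CR

open Module Polynomial IntermediateField

/-- The trace of a radical element is zero. -/
theorem trace_radical {K L : Type*} [Field K] [CharZero K] [Field L] [Algebra K L]
    {l : ℕ} (hl : l.Prime) (hd : finrank K L = l) (β : L) (x : K) (hβ : β ^ l = algebraMap K L x)
    (hn : β ∉ (algebraMap K L).range) : Algebra.trace K L β = 0 := by
  have hfd : FiniteDimensional K L := by
    apply FiniteDimensional.of_finrank_pos
    rw [hd]
    exact hl.pos
  have hint : IsIntegral K β := Algebra.IsIntegral.isIntegral β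
  have hroot : aeval β (X ^ l - C x : K[X]) = 0 := by simp [hβ]
  have hdvd : minpoly K β ∣ X ^ l - C x := minpoly.dvd K β hroot
  have hmon : (X ^ l - C x : K[X]).Monic := monic_X_pow_sub_C x hl.ne_zero
  have hdeg : (minpoly K β).natDegree = l := by
    have h1 : (minpoly K β).natDegree ∣ l := by
      rw [← hd]
      exact minpoly.degree_dvd hint
    rcases (Nat.dvd_prime hl).1 h1 with h2 | h2
    · exact absurd (minpoly.natDegree_eq_one_iff.1 h2) hn
    · exact h2
  have heq : minpoly K β = X ^ l - C x := by
    refine (Polynomial.eq_of_monic_of_dvd_of_natDegree_le (minpoly.monic hint) hmon hdvd ?_).symm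
    rw [hdeg, natDegree_X_pow_sub_C]
  rw [trace_eq_finrank_mul_minpoly_nextCoeff, heq]
  have h3 : (X ^ l - C x : K[X]).nextCoeff = 0 := by
    rw [nextCoeff_of_natDegree_pos (by rw [natDegree_X_pow_sub_C]; exact hl.pos),
      natDegree_X_pow_sub_C, coeff_sub, coeff_X_pow, coeff_C]
    have := hl.two_le
    rw [if_neg (by omega), if_neg (by omega), sub_zero]
  rw [h3]
  simp

/-- At most `l` elements are pairwise inequivalent modulo `K^*` while the `l`-th powers of their
quotients lie in `K`. -/
theorem radical_card {K L : Type*} [Field K] [CharZero K] [Field L] [Algebra K L]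
    {l : ℕ} (hl : l.Prime) (hd : finrank K L = l) {ι : Type*} [Fintype ι] (β : ι → L)
    (h0 : ∀ i, β i ≠ 0) (hpow : ∀ i j, ∃ x : K, (β i / β j) ^ l = algebraMap K L x)
    (hne : ∀ i j, i ≠ j → β i / β j ∉ (algebraMap K L).range) : Fintype.card ι ≤ l := by
  classical
  have hfd : FiniteDimensional K L := by
    apply FiniteDimensional.of_finrank_pos
    rw [hd]
    exact hl.pos
  have hli : LinearIndependent K β := by
    rw [Fintype.linearIndependent_iff]
    intro g hg j
    have h1 : Algebra.trace K L ((∑ i, g i • β i) * (β j)⁻¹) = 0 := by rw [hg]; simp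
    rw [Finset.sum_mul, map_sum] at h1
    have h2 : ∀ i, Algebra.trace K L (g i • β i * (β j)⁻¹) = if i = j then g j * l else 0 := by
      intro i
      rw [smul_mul_assoc, map_smul, smul_eq_mul, ← div_eq_mul_inv]
      split_ifs with h
      · subst h
        rw [div_self (h0 i)]
        have h3 : Algebra.trace K L (1 : L) = l := by
          have := Algebra.trace_algebraMap (R := K) (S := L) (1 : K)
          rw [map_one] at this
          rw [this, hd]
          simp
        rw [h3]
      · obtain ⟨x, hx⟩ := hpow i j
        rw [trace_radical hl hd _ x hx (hne i j h), mul_zero]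
    simp only [h2, Finset.sum_ite_eq', Finset.mem_univ, if_true] at h1
    rcases mul_eq_zero.1 h1 with h | h
    · exact h
    · exact absurd (by exact_mod_cast h) hl.ne_zero
  have := hli.fintype_card_le_finrank
  rwa [hd] at this

end Pool.Agent.R493.CR
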