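import Mathlib

set_option autoImplicit false

namespace Pool.Agent.R493.CR

open NumberField NumberField.Units Module

/-- The units modulo `l`-th powers form a set of at most `l ^ [K : ℚ]` elements. -/
theorem unit_classes (K : Type) [Field K] [NumberField K] (l : ℕ) [NeZero l] :
    ∃ (T : Type) (_ : Fintype T) (U : (𝓞 K)ˣ → T), Fintype.card T ≤ l ^ finrank ℚ K ∧
      ∀ u u', U u = U u' → ∃ w : (𝓞 K)ˣ, u' = u * w ^ l := by
  classical
  obtain ⟨ζ, hζ⟩ := IsCyclic.exists_generator (α := torsion K)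
  have h1 : ∀ u : (𝓞 K)ˣ, ∃ (k : ℤ) (e : Fin (rank K) → ℤ),
      u = ((ζ : (𝓞 K)ˣ)) ^ k * ∏ i, (fundSystem K i) ^ (e i) := by
    intro u
    obtain ⟨⟨t, e⟩, h, -⟩ := exist_unique_eq_mul_prod K u
    obtain ⟨k, hk⟩ := Subgroup.mem_zpowers_iff.1 (hζ t)
    refine ⟨k, e, ?_⟩
    rw [h, ← hk]
    simp
  choose k e hke using h1
  refine ⟨ZMod l × (Fin (rank K) → ZMod l), inferInstance,
    fun u => ((k u : ZMod l), fun i => (e u i : ZMod l)), ?_, ?_⟩
  · rw [Fintype.card_prod, ZMod.card, Fintype.card_fun, Fintype.card_fin, ZMod.card,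
      ← pow_succ']
    apply Nat.pow_le_pow_right (NeZero.pos l)
    have h2 := InfinitePlace.card_add_two_mul_card_eq_rank K
    have h3 : rank K = Fintype.card (InfinitePlace K) - 1 := rfl
    have h4 : 0 < Fintype.card (InfinitePlace K) := Fintype.card_pos
    have h5 := InfinitePlace.card_eq_nrRealPlaces_add_nrComplexPlaces K
    omega
  · intro u u' h
    rw [Prod.mk.injEq] at h
    obtain ⟨h1, h2⟩ := h
    have h2' := fun i => congrFun h2 i
    rw [ZMod.intCast_eq_intCast_iff_dvd_sub] at h1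
    simp only [ZMod.intCast_eq_intCast_iff_dvd_sub] at h2'
    obtain ⟨a, ha⟩ := h1
    choose b hb using h2'
    refine ⟨((ζ : (𝓞 K)ˣ)) ^ a * ∏ i, (fundSystem K i) ^ (b i), ?_⟩
    rw [hke u, hke u', mul_pow, ← Finset.prod_pow]
    have e1 : k u' = k u + a * l := by linarith
    have e2 : ∀ i, e u' i = e u i + b i * l := fun i => by linarith [hb i]
    rw [e1, zpow_add, zpow_mul, zpow_natCast]
    have e3 : ∏ i, fundSystem K i ^ (e u' i) =
        (∏ i, fundSystem K i ^ (e u i)) * ∏ i, (fundSystem K i ^ (b i)) ^ l := by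
      rw [← Finset.prod_mul_distrib]
      refine Finset.prod_congr rfl fun i _ => ?_
      rw [e2, zpow_add, zpow_mul, zpow_natCast]
    rw [e3]
    exact mul_mul_mul_comm _ _ _ _

end Pool.Agent.R493.CR
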