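import Pool.Agent.R493.CR.A
import Pool.Agent.R493.CR.G
import Pool.Agent.R493.CR.U
import Pool.Agent.R493.CR.T
import Pool.Agent.R493.CR.I

set_option autoImplicit false

namespace Pool.Agent.R493.CR

open Ideal Module NumberField
open scoped nonZeroDivisors

/-- The classes of the ideals `P i` with `P i ^ l = A i` in an extension of prime degree `l`:
the group of relations is bounded. -/
theorem kernel_bound (K L : Type) [Field K] [NumberField K] [Field L] [NumberField L]
    [Algebra K L] {l m n : ℕ} (hl : l.Prime) (hm : m ≠ 0) (hd : finrank K L = l)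
    (A : Fin n → (Ideal (𝓞 K))⁰) (P : Fin n → (Ideal (𝓞 L))⁰)
    (hP : ∀ i, (P i : Ideal (𝓞 L)) ^ l = (A i : Ideal (𝓞 K)).map (algebraMap (𝓞 K) (𝓞 L)))
    (hA : ∀ i, (ClassGroup.mk0 (A i)) ^ m = 1)
    (hind : ∀ v : Fin n → ℤ, ∏ i, (ClassGroup.mk0 (A i)) ^ (v i) = 1 → ∀ i, (m : ℤ) ∣ v i)
    (r : Fin n → Ideal (𝓞 K)) (hr : ∀ i, Prime (r i))
    (hrA : ∀ i j, emultiplicity (r i) (A j : Ideal (𝓞 K)) = if i = j then 1 else 0) :
    ∃ g : (Fin n → ZMod (m * l)) →+ Additive (ClassGroup (𝓞 L)),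
      (∀ v : Fin n → ℤ, g (fun i => (v i : ZMod (m * l))) =
        ∑ i, v i • Additive.ofMul (ClassGroup.mk0 (P i))) ∧
      Nat.card g.ker ≤ l * l ^ finrank ℚ L := by
  classical
  have hl0 := hl.ne_zero
  have : NeZero (m * l) := ⟨mul_ne_zero hm hl0⟩
  have : NeZero l := ⟨hl0⟩
  have hdR : finrank (𝓞 K) (𝓞 L) = l := by
    rw [← hd]
    exact (IsFractionRing.finrank_eq (𝓞 K) K (𝓞 L) L).symm
  -- generators of `A i ^ m`
  have hπ : ∀ i, ∃ π : 𝓞 K, π ≠ 0 ∧ (A i : Ideal (𝓞 K)) ^ m = span {π} := by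
    intro i
    have h1 : ClassGroup.mk0 (A i ^ m) = 1 := by rw [map_pow]; exact hA i
    rw [ClassGroup.mk0_eq_one_iff] at h1
    obtain ⟨π, hπ⟩ := h1
    have h2 : (A i : Ideal (𝓞 K)) ^ m = span {π} := by
      have : ((A i ^ m : (Ideal (𝓞 K))⁰) : Ideal (𝓞 K)) = (A i : Ideal (𝓞 K)) ^ m := rfl
      rw [← this, hπ]
    refine ⟨π, ?_, h2⟩
    rintro rfl
    have h3 : (A i : Ideal (𝓞 K)) ^ m = 0 := by rw [h2]; simp
    exact nonZeroDivisors.coe_ne_zero (A i) (pow_eq_zero_iff hm |>.1 h3)
  choose π hπ0 hπ using hπ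
  have hxord : ∀ i, (m * l) • Additive.ofMul (ClassGroup.mk0 (P i)) = 0 := by
    intro i
    rw [← ofMul_pow, ← ofMul_one, ← map_pow]
    congr 1
    rw [ClassGroup.mk0_eq_one_iff]
    have : ((P i ^ (m * l) : (Ideal (𝓞 L))⁰) : Ideal (𝓞 L)) =
        span {algebraMap (𝓞 K) (𝓞 L) (π i)} := by
      push_cast
      rw [mul_comm, pow_mul, hP, ← Ideal.map_pow, hπ, Ideal.map_span, Set.image_singleton]
    rw [this]
    exact ⟨⟨_, rfl⟩⟩
  obtain ⟨g, hg⟩ := exists_hom (m * l) (fun i => Additive.ofMul (ClassGroup.mk0 (P i))) hxord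
  refine ⟨g, hg, ?_⟩
  -- data attached to a relation
  have hdata : ∀ w : g.ker, ∃ (a : Fin n → ℕ) (α : 𝓞 L) (u : (𝓞 L)ˣ), (∀ i, a i < l) ∧
      (∀ i, (w : Fin n → ZMod (m * l)) i = ((m * a i : ℕ) : ZMod (m * l))) ∧ α ≠ 0 ∧
      α ^ l = u * algebraMap (𝓞 K) (𝓞 L) (∏ i, π i ^ a i) := by
    intro w
    have h1 : ∑ i, (((w : Fin n → ZMod (m * l)) i).val : ℤ) •
        Additive.ofMul (ClassGroup.mk0 (P i)) = 0 := by
      rw [← hg]
      have : (fun i => ((((w : Fin n → ZMod (m * l)) i).val : ℤ) : ZMod (m * l))) =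
          (w : Fin n → ZMod (m * l)) := by
        funext i
        simp
      rw [this]
      exact w.2
    have h2 : ∏ i, (ClassGroup.mk0 (P i)) ^ (((w : Fin n → ZMod (m * l)) i).val) = 1 := by
      have := congrArg Additive.toMul h1
      rw [toMul_sum, toMul_zero] at this
      simpa only [toMul_zsmul, toMul_ofMul, zpow_natCast] using this
    have h3 : ∏ i, (ClassGroup.mk0 (A i)) ^ ((((w : Fin n → ZMod (m * l)) i).val : ℤ)) = 1 := by
      have h4 := congrArg (normCl (𝓞 K) (𝓞 L)) h2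
      rw [map_prod, map_one] at h4
      rw [← h4]
      refine Finset.prod_congr rfl fun i _ => ?_
      rw [map_pow, normCl_mk0, zpow_natCast]
      congr 2
      apply Subtype.ext
      exact (relNorm_root l hl0 hdR _ _ (hP i)).symm
    have h5 := hind _ h3
    have h6 : ∀ i, ∃ a : ℕ, a < l ∧ ((w : Fin n → ZMod (m * l)) i).val = m * a := by
      intro i
      obtain ⟨a, ha⟩ : m ∣ ((w : Fin n → ZMod (m * l)) i).val := by exact_mod_cast h5 i
      refine ⟨a, ?_, ha⟩
      have h7 := ZMod.val_lt ((w : Fin n → ZMod (m * l)) i)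
      rw [ha] at h7
      exact lt_of_mul_lt_mul_left h7 (Nat.zero_le m)
    choose a ha1 ha2 using h6
    have h8 : ClassGroup.mk0 (∏ i, P i ^ (m * a i)) = 1 := by
      rw [map_prod, ← h2]
      refine Finset.prod_congr rfl fun i _ => ?_
      rw [map_pow, ha2]
    rw [ClassGroup.mk0_eq_one_iff] at h8
    obtain ⟨α, hα⟩ := h8
    have h9 : ∏ i, (P i : Ideal (𝓞 L)) ^ (m * a i) = span {α} := by
      have h10 : ((∏ i, P i ^ (m * a i) : (Ideal (𝓞 L))⁰) : Ideal (𝓞 L)) =
        ∏ i, (P i : Ideal (𝓞 L)) ^ (m * a i) := by push_cast; rfl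
      rw [← h10, hα]
    have hα0 : α ≠ 0 := by
      rintro rfl
      have h11 : ∏ i, (P i : Ideal (𝓞 L)) ^ (m * a i) = 0 := by rw [h9]; simp
      rw [Finset.prod_eq_zero_iff] at h11
      obtain ⟨i, _, hi⟩ := h11
      exact nonZeroDivisors.coe_ne_zero (P i) (eq_zero_of_pow_eq_zero hi)
    have h12 : span {α ^ l} = span {algebraMap (𝓞 K) (𝓞 L) (∏ i, π i ^ a i)} := by
      rw [← Ideal.span_singleton_pow, ← h9, ← Finset.prod_pow, map_prod,
        ← Ideal.prod_span_singleton]
      refine Finset.prod_congr rfl fun i _ => ?_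
      rw [← pow_mul, mul_comm (m * a i) l, pow_mul, hP, map_pow, ← Ideal.span_singleton_pow,
        ← Set.image_singleton, ← Ideal.map_span, ← hπ, ← Ideal.map_pow, ← Ideal.map_pow, pow_mul]
    rw [Ideal.span_singleton_eq_span_singleton] at h12
    obtain ⟨u, hu⟩ := h12.symm
    refine ⟨a, α, u, ha1, ?_, hα0, ?_⟩
    · intro i
      rw [← ha2 i]
      simp
    · rw [← hu, mul_comm]
  choose a α u ha1 ha2 hα0 hαu using hdata
  obtain ⟨T, hT, U, hTc, hU⟩ := unit_classes L l
  -- fibres of the unit class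
  have hfin : Finite g.ker := inferInstance
  have hft : Fintype g.ker := Fintype.ofFinite _
  have hfib : ∀ t ∈ (Finset.univ : Finset T),
      ((Finset.univ : Finset g.ker).filter fun w => U (u w) = t).card ≤ l := by
    intro t _
    by_cases hne : ((Finset.univ : Finset g.ker).filter fun w => U (u w) = t).Nonempty
    swap
    · rw [Finset.not_nonempty_iff_eq_empty.1 hne]; simp
    obtain ⟨w0, hw0⟩ := hne
    have hw0' : U (u w0) = t := by simpa using hw0
    have hz : ∀ w : {w : g.ker // U (u w) = t}, ∃ z : (𝓞 L)ˣ, u w = u w0 * z ^ l := by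
      intro w
      exact hU _ _ (by rw [hw0', w.2])
    choose z hz using hz
    have hzne : ∀ w, algebraMap (𝓞 L) L (z w : 𝓞 L) ≠ 0 := by
      intro w
      have : ((z w : 𝓞 L)) ≠ 0 := (z w).ne_zero
      rw [Ne, map_eq_zero_iff _ (FaithfulSMul.algebraMap_injective (𝓞 L) L)]
      exact this
    have hαne : ∀ w, algebraMap (𝓞 L) L (α w) ≠ 0 := by
      intro w
      rw [Ne, map_eq_zero_iff _ (FaithfulSMul.algebraMap_injective (𝓞 L) L)]
      exact hα0 w
    have hu0 : algebraMap (𝓞 L) L (u w0 : 𝓞 L) ≠ 0 := by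
      have : ((u w0 : 𝓞 L)) ≠ 0 := (u w0).ne_zero
      rw [Ne, map_eq_zero_iff _ (FaithfulSMul.algebraMap_injective (𝓞 L) L)]
      exact this
    -- the powers
    have hpw : ∀ w : {w : g.ker // U (u w) = t},
        (algebraMap (𝓞 L) L (α w) / algebraMap (𝓞 L) L (z w)) ^ l =
          algebraMap (𝓞 L) L (u w0) * algebraMap K L (algebraMap (𝓞 K) K (∏ i, π i ^ a w i)) := by
      intro w
      have h1 := congrArg (algebraMap (𝓞 L) L) (hαu w)
      rw [map_pow, map_mul, hz w, Units.val_mul, Units.val_pow_eq_pow_val, map_mul, map_pow] at h1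
      rw [div_pow, h1]
      have h2 : algebraMap (𝓞 L) L (algebraMap (𝓞 K) (𝓞 L) (∏ i, π i ^ a w i)) =
          algebraMap K L (algebraMap (𝓞 K) K (∏ i, π i ^ a w i)) := by
        rw [← IsScalarTower.algebraMap_apply, ← IsScalarTower.algebraMap_apply]
      rw [h2]
      have h3 := pow_ne_zero l (hzne w)
      field_simp
    have hπne : ∀ w : g.ker, algebraMap (𝓞 K) K (∏ i, π i ^ a w i) ≠ 0 := by
      intro w
      have : (∏ i, π i ^ a w i : 𝓞 K) ≠ 0 :=
        Finset.prod_ne_zero_iff.2 fun i _ => pow_ne_zero _ (hπ0 i)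
      rw [Ne, map_eq_zero_iff _ (FaithfulSMul.algebraMap_injective (𝓞 K) K)]
      exact this
    have hcard := radical_card (K := K) (L := L) hl hd
      (ι := {w : g.ker // U (u w) = t})
      (fun w => algebraMap (𝓞 L) L (α w) / algebraMap (𝓞 L) L (z w))
      (fun w => div_ne_zero (hαne w) (hzne w))
      (fun w w' => ⟨algebraMap (𝓞 K) K (∏ i, π i ^ a w i) /
          algebraMap (𝓞 K) K (∏ i, π i ^ a w' i), by
        rw [div_pow, hpw, hpw, map_div₀]
        have h1 : algebraMap K L (algebraMap (𝓞 K) K (∏ i, π i ^ a w' i)) ≠ 0 := by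
          rw [Ne, map_eq_zero_iff _ (algebraMap K L).injective]
          exact hπne w'
        field_simp⟩)
      (by
        rintro w w' hww ⟨c, hc⟩
        apply hww
        apply Subtype.ext
        apply Subtype.ext
        -- the equation in `K`
        have hc0 : c ≠ 0 := by
          rintro rfl
          rw [map_zero] at hc
          exact div_ne_zero (div_ne_zero (hαne w) (hzne w)) (div_ne_zero (hαne w') (hzne w')) hc.symm
        have h1 : c ^ l * algebraMap (𝓞 K) K (∏ i, π i ^ a w' i) =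
            algebraMap (𝓞 K) K (∏ i, π i ^ a w i) := by
          apply (algebraMap K L).injective
          rw [map_mul, map_pow, hc, div_pow, hpw, hpw]
          have h1 : algebraMap K L (algebraMap (𝓞 K) K (∏ i, π i ^ a w' i)) ≠ 0 := by
            rw [Ne, map_eq_zero_iff _ (algebraMap K L).injective]
            exact hπne w'
          field_simp
        obtain ⟨c1, c2, hc2, rfl⟩ := IsFractionRing.div_surjective (A := 𝓞 K) c
        have hc2' : c2 ≠ 0 := nonZeroDivisors.ne_zero hc2
        have hc2'' : algebraMap (𝓞 K) K c2 ≠ 0 := by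
          rw [Ne, map_eq_zero_iff _ (FaithfulSMul.algebraMap_injective (𝓞 K) K)]
          exact hc2'
        have hc1' : c1 ≠ 0 := by
          rintro rfl
          exact hc0 (by simp)
        have h2 : c1 ^ l * ∏ i, π i ^ a w' i = c2 ^ l * ∏ i, π i ^ a w i := by
          apply FaithfulSMul.algebraMap_injective (𝓞 K) K
          rw [map_mul, map_mul, map_pow, map_pow]
          rw [div_pow, div_mul_eq_mul_div, div_eq_iff (pow_ne_zero l hc2'')] at h1
          rw [h1]
          ring
        have h3 : span {c1} ^ l * ∏ i, (A i : Ideal (𝓞 K)) ^ (m * a w' i) =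
            span {c2} ^ l * ∏ i, (A i : Ideal (𝓞 K)) ^ (m * a w i) := by
          have e1 : ∀ e : Fin n → ℕ, ∏ i, (A i : Ideal (𝓞 K)) ^ (m * e i) =
              span {∏ i, π i ^ e i} := by
            intro e
            rw [← Ideal.prod_span_singleton]
            refine Finset.prod_congr rfl fun i _ => ?_
            rw [pow_mul, hπ, Ideal.span_singleton_pow]
          rw [e1, e1, Ideal.span_singleton_pow, Ideal.span_singleton_pow,
            Ideal.span_singleton_mul_span_singleton, Ideal.span_singleton_mul_span_singleton, h2]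
        have h4 := exponents_eq hl A hind hm r hr hrA c1 c2 hc1' hc2' (a w) (a w') (ha1 w)
          (ha1 w') h3
        funext i
        rw [ha2, ha2, h4])
    rw [Fintype.card_subtype] at hcard
    exact hcard
  have hmain := Finset.card_le_mul_card_image_of_maps_to
    (s := (Finset.univ : Finset g.ker)) (t := (Finset.univ : Finset T))
    (f := fun w => U (u w)) (fun _ _ => Finset.mem_univ _) l hfib
  rw [Nat.card_eq_fintype_card, ← Finset.card_univ]
  calc _ ≤ l * (Finset.univ : Finset T).card := hmain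
    _ ≤ l * l ^ finrank ℚ L := Nat.mul_le_mul_left l (by rwa [Finset.card_univ])

end Pool.Agent.R493.CR
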