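import Mathlib
import Pool.Agent.H565R2.NS.Co2

set_option autoImplicit false

namespace Pool.Agent.R493.CR

/-- Primes `≡ 1` modulo `8` which are squares modulo each other. -/
theorem exists_primes (t : ℕ) : ∃ s : Finset ℕ, s.card = t ∧ (∀ p ∈ s, p.Prime ∧ p % 8 = 1) ∧
    ∀ p ∈ s, ∀ q ∈ s, p ≠ q → ∃ x : ℤ, (q : ℤ) ∣ x ^ 2 - p := by
  classical
  induction t with
  | zero => exact ⟨∅, rfl, by simp, by simp⟩
  | succ t ih =>
    obtain ⟨s, hcard, hs, hsq⟩ := ih
    obtain ⟨N, hN⟩ : ∃ N, N = 8 * ∏ p ∈ s, p := ⟨_, rfl⟩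
    have hN0 : N ≠ 0 := by
      rw [hN]
      exact mul_ne_zero (by norm_num) (Finset.prod_ne_zero_iff.2 fun p hp => (hs p hp).1.ne_zero)
    obtain ⟨p, hp, hpN, hpmod⟩ := Nat.exists_prime_gt_modEq_one N hN0
    have hdvd : ∀ q ∈ s, q ∣ N := by
      intro q hq
      rw [hN]
      exact (Finset.dvd_prod_of_mem _ hq).mul_left 8
    have h8 : p % 8 = 1 := by
      have h1 : p ≡ 1 [MOD 8] := hpmod.of_dvd (by rw [hN]; exact dvd_mul_right _ _)
      exact h1
    have hps : p ∉ s := by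
      intro h
      have := Nat.le_of_dvd (Nat.pos_of_ne_zero hN0) (hdvd p h)
      omega
    have hmodq : ∀ q ∈ s, (q : ℤ) ∣ (p : ℤ) - 1 := by
      intro q hq
      have h1 : p ≡ 1 [MOD q] := hpmod.of_dvd (hdvd q hq)
      have h2 := (Nat.modEq_iff_dvd.1 h1.symm)
      simpa using h2
    refine ⟨insert p s, by rw [Finset.card_insert_of_notMem hps, hcard], ?_, ?_⟩
    · intro q hq
      rcases Finset.mem_insert.1 hq with rfl | hq
      · exact ⟨hp, h8⟩
      · exact hs q hq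
    · intro q hq q' hq' hne
      rcases Finset.mem_insert.1 hq with rfl | hqs
      · rcases Finset.mem_insert.1 hq' with rfl | hqs'
        · exact absurd rfl hne
        · refine ⟨1, ?_⟩
          have := hmodq q' hqs'
          have h3 : (1 : ℤ) ^ 2 - q = -((q : ℤ) - 1) := by ring
          rw [h3]
          exact this.neg_right
      · rcases Finset.mem_insert.1 hq' with rfl | hqs'
        · -- `q` is a square modulo the new prime `q'`
          have hqp : Fact q.Prime := ⟨(hs q hqs).1⟩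
          have hpp : Fact q'.Prime := ⟨hp⟩
          have h4 : q' % 4 = 1 := by omega
          have hq2 : q ≠ 2 := by
            have := (hs q hqs).2
            omega
          have h5 : IsSquare (q : ZMod q') := by
            rw [ZMod.exists_sq_eq_prime_iff_of_mod_four_eq_one h4 hq2]
            refine ⟨1, ?_⟩
            have h6 := hmodq q hqs
            rw [← ZMod.intCast_zmod_eq_zero_iff_dvd] at h6
            push_cast at h6
            rw [sub_eq_zero] at h6
            rw [h6, mul_one]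
          obtain ⟨y, hy⟩ := h5
          obtain ⟨z, rfl⟩ := ZMod.intCast_surjective y
          refine ⟨z, ?_⟩
          rw [← ZMod.intCast_zmod_eq_zero_iff_dvd]
          push_cast
          rw [hy]
          ring
        · exact hsq q hqs q' hqs' hne

/-- Bezout for three integers. -/
theorem bez3 (a b c : ℤ) (h : ∀ q : ℕ, q.Prime → (q : ℤ) ∣ a → (q : ℤ) ∣ b → ¬ (q : ℤ) ∣ c) :
    ∃ x y z : ℤ, x * a + y * b + z * c = 1 := by
  have hco : Nat.Coprime (Int.gcd a b) c.natAbs := by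
    apply Nat.Coprime.symm
    apply Nat.Coprime.symm
    refine Nat.coprime_of_dvd ?_
    intro q hq h1 h2
    refine h q hq ?_ ?_ ?_
    · exact (Int.natCast_dvd_natCast.2 h1).trans (Int.gcd_dvd_left a b)
    · exact (Int.natCast_dvd_natCast.2 h1).trans (Int.gcd_dvd_right a b)
    · exact Int.natCast_dvd.2 h2
  have h1 : IsCoprime ((Int.gcd a b : ℕ) : ℤ) c := by
    rw [Int.isCoprime_iff_gcd_eq_one]
    exact hco
  obtain ⟨u, v, huv⟩ := h1
  rw [Int.gcd_eq_gcd_ab] at huv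
  exact ⟨u * Int.gcdA a b, u * Int.gcdB a b, v, by linear_combination huv⟩

/-- A primitive solution of the conic. -/
theorem exists_primitive (n p : ℤ) (h : ∃ w Y X : ℤ, w ≠ 0 ∧ w ^ 2 - n * Y ^ 2 = p * X ^ 2) :
    ∃ w Y X : ℤ, w ^ 2 - n * Y ^ 2 = p * X ^ 2 ∧
      ∀ q : ℕ, q.Prime → (q : ℤ) ∣ w → (q : ℤ) ∣ Y → ¬ (q : ℤ) ∣ X := by
  have key : ∀ N : ℕ, ∀ w Y X : ℤ, w.natAbs ≤ N → w ≠ 0 → w ^ 2 - n * Y ^ 2 = p * X ^ 2 →
      ∃ w Y X : ℤ, w ^ 2 - n * Y ^ 2 = p * X ^ 2 ∧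
      ∀ q : ℕ, q.Prime → (q : ℤ) ∣ w → (q : ℤ) ∣ Y → ¬ (q : ℤ) ∣ X := by
    intro N
    induction N with
    | zero =>
      intro w Y X h1 h2
      exact absurd (Int.natAbs_eq_zero.1 (by omega)) h2
    | succ N ih =>
      intro w Y X h1 h2 h3
      by_cases hp : ∀ q : ℕ, q.Prime → (q : ℤ) ∣ w → (q : ℤ) ∣ Y → ¬ (q : ℤ) ∣ X
      · exact ⟨w, Y, X, h3, hp⟩
      · push Not at hp
        obtain ⟨q, hq, ⟨w', rfl⟩, ⟨Y', rfl⟩, ⟨X', rfl⟩⟩ := hp
        have hq0 : (q : ℤ) ≠ 0 := by exact_mod_cast hq.ne_zero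
        have hw' : w' ≠ 0 := by rintro rfl; exact h2 (by ring)
        apply ih w' Y' X'
        · rw [Int.natAbs_mul, Int.natAbs_natCast] at h1
          have h4 : 0 < w'.natAbs := Int.natAbs_pos.2 hw'
          have h5 := hq.two_le
          nlinarith
        · exact hw'
        · have h6 : (q : ℤ) ^ 2 * (w' ^ 2 - n * Y' ^ 2) = (q : ℤ) ^ 2 * (p * X' ^ 2) := by
            linear_combination h3
          exact mul_left_cancel₀ (pow_ne_zero 2 hq0) h6
  obtain ⟨w, Y, X, h1, h2⟩ := h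
  exact key _ w Y X le_rfl h1 h2

/-- The conic for a decomposition `n = p D`. -/
theorem exists_conic (s : Finset ℕ) (hs : ∀ p ∈ s, p.Prime ∧ p % 8 = 1)
    (hsq : ∀ p ∈ s, ∀ q ∈ s, p ≠ q → ∃ x : ℤ, (q : ℤ) ∣ x ^ 2 - p) (p : ℕ) (hp : p ∈ s) :
    ∃ w Y X : ℤ, w ^ 2 - ((∏ q ∈ s, q : ℕ) : ℤ) * Y ^ 2 = p * X ^ 2 ∧
      ∀ q : ℕ, q.Prime → (q : ℤ) ∣ w → (q : ℤ) ∣ Y → ¬ (q : ℤ) ∣ X := by
  classical
  apply exists_primitive
  obtain ⟨D, hD⟩ : ∃ D, D = ∏ q ∈ s.erase p, q := ⟨_, rfl⟩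
  have hn : ∏ q ∈ s, q = p * D := by rw [hD, Finset.mul_prod_erase s (fun q => q) hp]
  have hpp := (hs p hp).1
  have hD8 : D % 8 = 1 := by
    rw [hD, Finset.prod_nat_mod]
    rw [Finset.prod_congr rfl (fun q hq => (hs q (Finset.mem_of_mem_erase hq)).2)]
    simp
  have hcop : Nat.Coprime D p := by
    rw [hD]
    apply Nat.Coprime.prod_left
    intro q hq
    exact (Nat.coprime_primes (hs q (Finset.mem_of_mem_erase hq)).1 hpp).2
      (Finset.ne_of_mem_erase hq)
  have hsqf : Squarefree D := by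
    rw [hD]
    apply Finset.squarefree_prod_of_pairwise_isCoprime
    · intro q hq q' hq' hne
      have h1 := (hs q (Finset.mem_of_mem_erase hq)).1
      have h2 := (hs q' (Finset.mem_of_mem_erase hq')).1
      exact Nat.coprime_iff_isRelPrime.1 ((Nat.coprime_primes h1 h2).2 hne)
    · intro q hq
      exact (hs q (Finset.mem_of_mem_erase hq)).1.squarefree
  have h1 : ∃ r : ℤ, (p : ℤ) ∣ r ^ 2 + D := by
    have hfp : Fact p.Prime := ⟨hpp⟩
    -- `-1` and all the other primes are squares modulo `p`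
    have hm1 : IsSquare (-1 : ZMod p) := by
      rw [ZMod.exists_sq_eq_neg_one_iff]
      have := (hs p hp).2
      omega
    have hsqD : IsSquare ((D : ℕ) : ZMod p) := by
      rw [hD, Nat.cast_prod]
      have hprod : ∀ u : Finset ℕ, (∀ q ∈ u, IsSquare ((q : ℕ) : ZMod p)) →
          IsSquare (∏ q ∈ u, ((q : ℕ) : ZMod p)) := by
        intro u hu
        induction u using Finset.induction_on with
        | empty => simp
        | insert x u hx ih =>
          rw [Finset.prod_insert hx]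
          exact (hu x (Finset.mem_insert_self x u)).mul
            (ih fun q hq => hu q (Finset.mem_insert_of_mem hq))
      apply hprod
      intro q hq
      obtain ⟨x, hx⟩ := hsq q (Finset.mem_of_mem_erase hq) p hp (Finset.ne_of_mem_erase hq)
      refine ⟨(x : ZMod p), ?_⟩
      rw [← ZMod.intCast_zmod_eq_zero_iff_dvd] at hx
      push_cast at hx
      rw [sub_eq_zero] at hx
      rw [← hx, sq]
    obtain ⟨y, hy⟩ := hm1.mul hsqD
    obtain ⟨z, rfl⟩ := ZMod.intCast_surjective y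
    refine ⟨z, ?_⟩
    rw [← ZMod.intCast_zmod_eq_zero_iff_dvd]
    push_cast
    rw [sq, ← hy]
    ring
  have h2 : ∃ r : ℤ, (D : ℤ) ∣ r ^ 2 - p := by
    have := Pool.Agent.H565R2.NS.Co2.sqf_sq D hsqf (-(p : ℤ)) (by
      intro q hq hqD
      have hqs : q ∈ s.erase p := by
        rw [hD] at hqD
        obtain ⟨q', hq', h3⟩ := (Prime.dvd_finsetProd_iff hq.prime _).1 hqD
        have := (Nat.prime_dvd_prime_iff_eq hq (hs q' (Finset.mem_of_mem_erase hq')).1).1 h3
        rwa [this]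
      obtain ⟨x, hx⟩ := hsq p hp q (Finset.mem_of_mem_erase hqs) (Finset.ne_of_mem_erase hqs).symm
      exact ⟨x, by rwa [← sub_eq_add_neg]⟩)
    obtain ⟨r, hr⟩ := this
    exact ⟨r, by rwa [sub_eq_add_neg]⟩
  obtain ⟨X, Y, Z, hZ, hXYZ⟩ := Pool.Agent.H565R2.NS.legendre hD8 (hs p hp).2 hcop h1 h2
  refine ⟨p * Z, Y, X, mul_ne_zero (by exact_mod_cast hpp.ne_zero) hZ, ?_⟩
  rw [hn]
  push_cast
  linear_combination -(p : ℤ) * hXYZ

end Pool.Agent.R493.CR
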