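import Mathlib

set_option autoImplicit false

namespace Pool.Agent.R493.CR

open Ideal
open scoped nonZeroDivisors

theorem core {S : Type*} [CommRing S] [IsDedekindDomain S] (p D : ℤ) (s α β : S)
    (w Y X c : ℤ) (hp0 : (p : S) ≠ 0) (hs : s ^ 2 = p * D) (hpD : IsCoprime p D)
    (hαβ : α * β = p * X ^ 2) (hβ : (c : S) * β = w - Y * s) (hpw : p ∣ w) (hpY : IsCoprime Y p)
    (hcp : IsCoprime c p) (htop : ∃ u v t : S, u * α + v * β + t * X = 1) :
    span {α} = span {(p : S), s} * span {α, (X : S)} ^ 2 := by
  -- `P² = (p)`
  have hP2 : span {(p : S), s} * span {(p : S), s} = span {(p : S)} := by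
    apply le_antisymm
    · rw [Ideal.span_pair_mul_span_pair, Ideal.span_le]
      rintro x hx
      simp only [Set.mem_insert_iff, Set.mem_singleton_iff] at hx
      rw [SetLike.mem_coe, Ideal.mem_span_singleton]
      rcases hx with rfl | rfl | rfl | rfl
      · exact dvd_mul_right _ _
      · exact dvd_mul_right _ _
      · exact dvd_mul_left _ _
      · rw [← sq, hs]; exact dvd_mul_right _ _
    · rw [Ideal.span_singleton_le_iff_mem, Ideal.span_pair_mul_span_pair]
      obtain ⟨a, b, hab⟩ := hpD
      have hab' : (a : S) * p + b * D = 1 := by exact_mod_cast congrArg (Int.cast : ℤ → S) hab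
      have h1 : (p : S) = a * (p * p) + b * (s * s) := by
        rw [← sq s, hs]
        linear_combination (-(p : S)) * hab'
      have hm : (a : S) * (p * p) + b * (s * s) ∈
          span {(p : S) * p, (p : S) * s, s * p, s * s} := by
        apply Ideal.add_mem
        · apply Ideal.mul_mem_left
          apply Ideal.subset_span
          simp
        · apply Ideal.mul_mem_left
          apply Ideal.subset_span
          simp
      rwa [← h1] at hm
  obtain ⟨u, v, t, huvt⟩ := htop
  -- the ideal `(pα, pX, β)` is `P`
  have hP : span {(p : S) * α, (p : S) * X, β} = span {(p : S), s} := by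
    apply le_antisymm
    · rw [Ideal.span_le]
      rintro x hx
      simp only [Set.mem_insert_iff, Set.mem_singleton_iff] at hx
      have hpm : (p : S) ∈ span {(p : S), s} := Ideal.subset_span (by simp)
      have hsm : s ∈ span {(p : S), s} := Ideal.subset_span (by simp)
      rcases hx with rfl | rfl | rfl
      · exact Ideal.mul_mem_right _ _ hpm
      · exact Ideal.mul_mem_right _ _ hpm
      · obtain ⟨e, f, hef⟩ := hcp
        have hef' : (e : S) * c + f * p = 1 := by
          exact_mod_cast congrArg (Int.cast : ℤ → S) hef
        obtain ⟨w', rfl⟩ := hpw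
        push_cast at hβ
        have h1 : x = (e * w' + f * x) * p + (-(e * Y)) * s := by
          linear_combination (-x) * hef' + (e : S) * hβ
        rw [SetLike.mem_coe, h1]
        exact Ideal.add_mem _ (Ideal.mul_mem_left _ _ hpm) (Ideal.mul_mem_left _ _ hsm)
    · have h1 : (p : S) * α ∈ span {(p : S) * α, (p : S) * X, β} := Ideal.subset_span (by simp)
      have h2 : (p : S) * X ∈ span {(p : S) * α, (p : S) * X, β} := Ideal.subset_span (by simp)
      have h3 : β ∈ span {(p : S) * α, (p : S) * X, β} := Ideal.subset_span (by simp)
      have hpm : (p : S) ∈ span {(p : S) * α, (p : S) * X, β} := by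
        have h4 : (p : S) = u * (p * α) + (v * p) * β + t * (p * X) := by
          linear_combination (-(p : S)) * huvt
        have hm := Ideal.add_mem _ (Ideal.add_mem _ (Ideal.mul_mem_left _ u h1)
          (Ideal.mul_mem_left _ (v * p) h3)) (Ideal.mul_mem_left _ t h2)
        rwa [← h4] at hm
      rw [Ideal.span_le]
      rintro x hx
      simp only [Set.mem_insert_iff, Set.mem_singleton_iff] at hx
      rcases hx with rfl | rfl
      · exact hpm
      · obtain ⟨e, f, hef⟩ := hpY
        have hef' : (e : S) * Y + f * p = 1 := by
          exact_mod_cast congrArg (Int.cast : ℤ → S) hef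
        obtain ⟨w', rfl⟩ := hpw
        push_cast at hβ
        have h5 : x = (e * w' + f * x) * p + (-(e * c)) * β := by
          linear_combination (-x) * hef' + (e : S) * hβ
        rw [SetLike.mem_coe, h5]
        exact Ideal.add_mem _ (Ideal.mul_mem_left _ _ hpm) (Ideal.mul_mem_left _ _ h3)
  have hkey : span {α} * span {(p : S), s} = span {(p : S)} * span {α, (X : S)} ^ 2 := by
    rw [← hP]
    simp only [Ideal.span_insert, sq, Ideal.mul_sup, Ideal.sup_mul,
      Ideal.span_singleton_mul_span_singleton]
    have e1 : (p : S) * (α * α) = α * (p * α) := by ring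
    have e2 : (p : S) * (α * X) = α * (p * X) := by ring
    have e3 : (p : S) * (X * α) = α * (p * X) := by ring
    have e4 : (p : S) * (X * X) = α * β := by rw [hαβ]; ring
    rw [e1, e2, e3, e4]
    apply le_antisymm
    · refine sup_le ?_ (sup_le ?_ ?_)
      · exact le_sup_of_le_left le_sup_left
      · exact le_sup_of_le_left le_sup_right
      · exact le_sup_of_le_right le_sup_right
    · refine sup_le (sup_le ?_ ?_) (sup_le ?_ ?_)
      · exact le_sup_left
      · exact le_sup_of_le_right le_sup_left
      · exact le_sup_of_le_right le_sup_left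
      · exact le_sup_of_le_right le_sup_right
  have hp' : span {(p : S)} ≠ (0 : Ideal S) := by
    rw [Ideal.zero_eq_bot, Ne, span_singleton_eq_bot]; exact hp0
  apply mul_right_cancel₀ hp'
  calc span {α} * span {(p : S)} = span {α} * (span {(p : S), s} * span {(p : S), s}) := by rw [hP2]
    _ = (span {α} * span {(p : S), s}) * span {(p : S), s} := by rw [mul_assoc]
    _ = (span {(p : S)} * span {α, (X : S)} ^ 2) * span {(p : S), s} := by rw [hkey]
    _ = _ := by ring

/-- The square of the ideal `(p, s)`. -/
theorem ideal_sq {S : Type*} [CommRing S] (p D : ℤ) (s : S)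
    (hs : s ^ 2 = p * D) (hpD : IsCoprime p D) : span {(p : S), s} ^ 2 = span {(p : S)} := by
  rw [sq]
  apply le_antisymm
  · rw [Ideal.span_pair_mul_span_pair, Ideal.span_le]
    rintro x hx
    simp only [Set.mem_insert_iff, Set.mem_singleton_iff] at hx
    rw [SetLike.mem_coe, Ideal.mem_span_singleton]
    rcases hx with rfl | rfl | rfl | rfl
    · exact dvd_mul_right _ _
    · exact dvd_mul_right _ _
    · exact dvd_mul_left _ _
    · rw [← sq, hs]; exact dvd_mul_right _ _
  · rw [Ideal.span_singleton_le_iff_mem, Ideal.span_pair_mul_span_pair]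
    obtain ⟨a, b, hab⟩ := hpD
    have hab' : (a : S) * p + b * D = 1 := by exact_mod_cast congrArg (Int.cast : ℤ → S) hab
    have h1 : (p : S) = a * (p * p) + b * (s * s) := by
      rw [← sq s, hs]
      linear_combination (-(p : S)) * hab'
    have hm : (a : S) * (p * p) + b * (s * s) ∈
        span {(p : S) * p, (p : S) * s, s * p, s * s} := by
      apply Ideal.add_mem
      · apply Ideal.mul_mem_left
        apply Ideal.subset_span
        simp
      · apply Ideal.mul_mem_left
        apply Ideal.subset_span
        simp
    rwa [← h1] at hm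

end Pool.Agent.R493.CR
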