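import Pool.Agent.R493.CR.Q1
import Pool.Agent.R493.CR.Q2
import Pool.Agent.R493.CR.F

set_option autoImplicit false

namespace Pool.Agent.R493.CR

open Ideal Module NumberField
open scoped nonZeroDivisors

/-- Halving: the kernel for the halves is at most the square of the kernel. -/
theorem ker_double {G : Type*} [AddCommGroup G] {t a : ℕ} (ha : a = 2) (x y : Fin t → G)
    (hxy : ∀ i, (2 : ℤ) • y i = x i) (g : (Fin t → ZMod a) →+ G)
    (hg : ∀ v : Fin t → ℤ, g (fun i => (v i : ZMod a)) = ∑ i, v i • x i)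
    (h : (Fin t → ZMod 4) →+ G)
    (hh : ∀ v : Fin t → ℤ, h (fun i => (v i : ZMod 4)) = ∑ i, v i • y i) :
    Nat.card h.ker ≤ Nat.card g.ker * Nat.card g.ker := by
  classical
  subst ha
  have hft : Fintype h.ker := Fintype.ofFinite _
  have hgt : Fintype g.ker := Fintype.ofFinite _
  -- representatives
  let v : h.ker → Fin t → ℤ := fun w i => (((w : Fin t → ZMod 4) i).val : ℤ)
  have hv : ∀ w : h.ker, (fun i => (v w i : ZMod 4)) = (w : Fin t → ZMod 4) := by
    intro w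
    funext i
    simp [v]
  have hv0 : ∀ w : h.ker, ∑ i, v w i • y i = 0 := by
    intro w
    rw [← hh, hv]
    exact w.2
  have hdb : ∀ u : Fin t → ℤ, ∑ i, u i • x i = ∑ i, (2 * u i) • y i := by
    intro u
    refine Finset.sum_congr rfl fun i _ => ?_
    rw [← hxy, mul_comm, mul_smul]
  let F : h.ker → g.ker := fun w => ⟨fun i => (v w i : ZMod 2), by
    rw [AddMonoidHom.mem_ker, hg, hdb]
    have : ∑ i, (2 * v w i) • y i = (2 : ℤ) • ∑ i, v w i • y i := by
      rw [Finset.smul_sum]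
      refine Finset.sum_congr rfl fun i _ => ?_
      rw [mul_smul]
    rw [this, hv0, smul_zero]⟩
  have hfib : ∀ T ∈ (Finset.univ : Finset g.ker),
      ((Finset.univ : Finset h.ker).filter fun w => F w = T).card ≤ Fintype.card g.ker := by
    intro T _
    by_cases hne : ((Finset.univ : Finset h.ker).filter fun w => F w = T).Nonempty
    swap
    · rw [Finset.not_nonempty_iff_eq_empty.1 hne]; simp
    obtain ⟨w0, hw0⟩ := hne
    have hw0' : F w0 = T := by simpa using hw0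
    have hu : ∀ w : {w : h.ker // F w = T}, ∃ u : Fin t → ℤ, ∀ i, v w i - v w0 i = 2 * u i := by
      intro w
      have h1 : F w.1 = F w0 := by rw [w.2, hw0']
      have h2 : ∀ i, ((v w.1 i : ℤ) : ZMod 2) = ((v w0 i : ℤ) : ZMod 2) := by
        intro i
        exact congrFun (congrArg Subtype.val h1) i
      have h3 : ∀ i, ∃ u : ℤ, v w i - v w0 i = 2 * u := by
        intro i
        have h4 := h2 i
        rw [ZMod.intCast_eq_intCast_iff_dvd_sub] at h4
        obtain ⟨k, hk⟩ := h4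
        push_cast at hk
        exact ⟨-k, by linear_combination -hk⟩
      choose u hu using h3
      exact ⟨u, hu⟩
    choose u hu using hu
    let G' : {w : h.ker // F w = T} → g.ker := fun w => ⟨fun i => (u w i : ZMod 2), by
      rw [AddMonoidHom.mem_ker, hg, hdb]
      have h5 : ∑ i, (2 * u w i) • y i = ∑ i, v w.1 i • y i - ∑ i, v w0 i • y i := by
        rw [← Finset.sum_sub_distrib]
        refine Finset.sum_congr rfl fun i _ => ?_
        rw [← hu w i, sub_smul]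
      rw [h5, hv0, hv0, sub_zero]⟩
    have hinj : Function.Injective G' := by
      intro w w' hww
      apply Subtype.ext
      apply Subtype.ext
      rw [← hv, ← hv]
      funext i
      have h6 := congrFun (congrArg Subtype.val hww) i
      simp only [G'] at h6
      rw [ZMod.intCast_eq_intCast_iff_dvd_sub] at h6 ⊢
      obtain ⟨k, hk⟩ := h6
      refine ⟨k, ?_⟩
      have h7 := hu w i
      have h8 := hu w' i
      push_cast at hk ⊢
      linear_combination (2 : ℤ) * hk + h8 - h7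
    have h9 := Fintype.card_le_of_injective G' hinj
    rw [Fintype.card_subtype] at h9
    exact h9
  have hmain := Finset.card_le_mul_card_image_of_maps_to
    (s := (Finset.univ : Finset h.ker)) (t := (Finset.univ : Finset g.ker))
    (f := F) (fun _ _ => Finset.mem_univ _) (Fintype.card g.ker) hfib
  rw [Nat.card_eq_fintype_card, Nat.card_eq_fintype_card, ← Finset.card_univ]
  simpa using hmain

/-- The classes of the ramified primes are squares. -/
theorem sq_class (L : Type) [Field L] [NumberField L] (s : Finset ℕ)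
    (hs : ∀ p ∈ s, p.Prime ∧ p % 8 = 1)
    (hsq : ∀ p ∈ s, ∀ q ∈ s, p ≠ q → ∃ x : ℤ, (q : ℤ) ∣ x ^ 2 - p) (θ : 𝓞 L)
    (hθ : θ ^ 2 = ((∏ q ∈ s, q : ℕ) : 𝓞 L)) (p : ℕ) (hp : p ∈ s) (P : (Ideal (𝓞 L))⁰)
    (hP : (P : Ideal (𝓞 L)) = span {((p : ℤ) : 𝓞 L), θ}) :
    ∃ y : ClassGroup (𝓞 L), y ^ 2 = ClassGroup.mk0 P := by
  classical
  obtain ⟨w, Y, X, hc, hprim⟩ := exists_conic s hs hsq p hp
  obtain ⟨D, hD⟩ : ∃ D, D = ∏ q ∈ s.erase p, q := ⟨_, rfl⟩
  obtain ⟨n, hn⟩ : ∃ n, n = ∏ q ∈ s, q := ⟨_, rfl⟩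
  rw [← hn] at hc hθ
  have hnD : n = p * D := by rw [hn, hD, Finset.mul_prod_erase s (fun q => q) hp]
  have hpp := (hs p hp).1
  have hpz : Prime (p : ℤ) := Nat.prime_iff_prime_int.1 hpp
  have hcop : Nat.Coprime p D := by
    rw [hD]
    apply Nat.Coprime.prod_right
    intro q hq
    exact ((Nat.coprime_primes (hs q (Finset.mem_of_mem_erase hq)).1 hpp).2
      (Finset.ne_of_mem_erase hq)).symm
  have hpD : IsCoprime (p : ℤ) (D : ℤ) := Nat.isCoprime_iff_coprime.2 hcop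
  have hsqf : Squarefree n := by
    rw [hn]
    apply Finset.squarefree_prod_of_pairwise_isCoprime
    · intro q hq q' hq' hne
      exact Nat.coprime_iff_isRelPrime.1 ((Nat.coprime_primes (hs q hq).1 (hs q' hq').1).2 hne)
    · intro q hq
      exact (hs q hq).1.squarefree
  have hn8 : n % 8 = 1 := by
    rw [hn, Finset.prod_nat_mod, Finset.prod_congr rfl (fun q hq => (hs q hq).2)]
    simp
  have hc' : w ^ 2 - (p : ℤ) * D * Y ^ 2 = p * X ^ 2 := by
    rw [← hc, hnD]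
    push_cast
    ring
  have hpw : (p : ℤ) ∣ w := by
    apply hpz.dvd_of_dvd_pow (n := 2)
    exact ⟨D * Y ^ 2 + X ^ 2, by linear_combination hc'⟩
  have hpY : ¬ (p : ℤ) ∣ Y := by
    intro h
    obtain ⟨w', hw'⟩ := hpw
    obtain ⟨Y', hY'⟩ := h
    refine hprim p hpp ⟨w', hw'⟩ ⟨Y', hY'⟩ ?_
    apply hpz.dvd_of_dvd_pow (n := 2)
    refine ⟨w' ^ 2 - p * D * Y' ^ 2, ?_⟩
    apply mul_left_cancel₀ hpz.ne_zero
    rw [hw', hY'] at hc'
    linear_combination -hc'
  have hX0 : X ≠ 0 := by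
    rintro rfl
    obtain ⟨w', hw'⟩ := hpw
    rw [hw'] at hc'
    have h1 : (p : ℤ) ∣ D * Y ^ 2 := by
      refine ⟨w' ^ 2, ?_⟩
      apply mul_left_cancel₀ hpz.ne_zero
      linear_combination -hc'
    rcases hpz.dvd_or_dvd h1 with h2 | h2
    · have h3 : p ∣ D := by exact_mod_cast h2
      have h4 := Nat.Coprime.eq_one_of_dvd hcop h3
      exact hpp.one_lt.ne' h4
    · exact hpY (hpz.dvd_of_dvd_pow h2)
  have hYp : IsCoprime Y (p : ℤ) :=
    ((hpz.irreducible.coprime_iff_not_dvd).2 hpY).symm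
  have hwX : ∀ q : ℕ, q.Prime → (q : ℤ) ∣ w → ¬ (q : ℤ) ∣ X := by
    intro q hq h1 h2
    have hqz : Prime (q : ℤ) := Nat.prime_iff_prime_int.1 hq
    by_cases h3 : (q : ℤ) ∣ Y
    · exact hprim q hq h1 h3 h2
    · have h4 : (q : ℤ) ^ 2 ∣ n * Y ^ 2 := by
        have h5 : (n : ℤ) * Y ^ 2 = w ^ 2 - p * X ^ 2 := by linear_combination -hc
        rw [h5]
        exact dvd_sub (pow_dvd_pow_of_dvd h1 2) ((pow_dvd_pow_of_dvd h2 2).mul_left _)
      have h5 : IsCoprime ((q : ℤ) ^ 2) (Y ^ 2) :=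
        ((hqz.irreducible.coprime_iff_not_dvd).2 h3).pow
      have h6 : (q : ℤ) ^ 2 ∣ n := h5.dvd_of_dvd_mul_right h4
      have h7 : q * q ∣ n := by
        have : q ^ 2 ∣ n := by exact_mod_cast h6
        rwa [sq] at this
      exact hq.one_lt.ne' (Nat.isUnit_iff.1 (hsqf q h7))
  have hcopX : ∀ X' : ℤ, X' ∣ X → IsCoprime w X' := by
    intro X' hX'
    rw [Int.isCoprime_iff_gcd_eq_one]
    refine Nat.coprime_of_dvd ?_
    intro q hq h1 h2
    exact hwX q hq (Int.natCast_dvd.2 h1) ((Int.natCast_dvd.2 h2).trans hX')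
  have hp0 : ((p : ℤ) : 𝓞 L) ≠ 0 := by
    have : (p : 𝓞 L) ≠ 0 := by exact_mod_cast hpp.ne_zero
    simpa using this
  have hθ' : θ ^ 2 = ((p : ℤ) : 𝓞 L) * ((D : ℤ) : 𝓞 L) := by
    rw [hθ, hnD]
    push_cast
    ring
  -- the conclusion from a suitable element
  have hfin : ∀ (α β : 𝓞 L) (X' c : ℤ), X' ∣ X → X' ≠ 0 → α * β = ((p : ℤ) : 𝓞 L) * X' ^ 2 →
      (c : 𝓞 L) * β = w - Y * θ → IsCoprime c (p : ℤ) →
      (∃ u v t : 𝓞 L, u * α + v * β + t * X' = 1) →
      ∃ y : ClassGroup (𝓞 L), y ^ 2 = ClassGroup.mk0 P := by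
    intro α β X' c hX' hX'0 hαβ hβ hcp htop
    have h1 := core (p : ℤ) (D : ℤ) θ α β w Y X' c hp0 hθ' hpD hαβ hβ hpw hYp hcp htop
    have hX'S : (X' : 𝓞 L) ≠ 0 := by exact_mod_cast hX'0
    have hα0 : α ≠ 0 := by
      rintro rfl
      rw [zero_mul] at hαβ
      exact mul_ne_zero hp0 (pow_ne_zero 2 hX'S) hαβ.symm
    have hI0 : span {α, (X' : 𝓞 L)} ∈ (Ideal (𝓞 L))⁰ := by
      rw [mem_nonZeroDivisors_iff_ne_zero, Ideal.zero_eq_bot, Ne, Ideal.span_eq_bot]
      intro h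
      exact hα0 (h α (by simp))
    have hα' : span {α} ∈ (Ideal (𝓞 L))⁰ := by
      rw [mem_nonZeroDivisors_iff_ne_zero, Ideal.zero_eq_bot, Ne, span_singleton_eq_bot]
      exact hα0
    have h2 : (⟨span {α}, hα'⟩ : (Ideal (𝓞 L))⁰) = P * ⟨span {α, (X' : 𝓞 L)}, hI0⟩ ^ 2 := by
      apply Subtype.ext
      push_cast
      rw [hP]
      exact h1
    have h3 := congrArg ClassGroup.mk0 h2
    rw [map_mul, map_pow] at h3
    have h4 : ClassGroup.mk0 (⟨span {α}, hα'⟩ : (Ideal (𝓞 L))⁰) = 1 := by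
      rw [ClassGroup.mk0_eq_one_iff]
      exact ⟨⟨α, rfl⟩⟩
    rw [h4] at h3
    refine ⟨(ClassGroup.mk0 ⟨span {α, (X' : 𝓞 L)}, hI0⟩)⁻¹, ?_⟩
    rw [inv_pow]
    exact (eq_inv_of_mul_eq_one_left h3.symm).symm
  have hcS : (w : 𝓞 L) ^ 2 - (p : 𝓞 L) * D * Y ^ 2 = p * X ^ 2 := by
    exact_mod_cast congrArg (Int.cast : ℤ → 𝓞 L) hc'
  by_cases hX2 : (2 : ℤ) ∣ X
  · -- `w` and `Y` are odd
    obtain ⟨X', hX'⟩ := hX2
    have hX'0 : X' ≠ 0 := by rintro rfl; exact hX0 (by rw [hX', mul_zero])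
    have hw2 : ¬ (2 : ℤ) ∣ w := fun h => hwX 2 Nat.prime_two (by exact_mod_cast h)
      (by rw [hX']; exact_mod_cast dvd_mul_right _ _)
    obtain ⟨a0, ha0⟩ : ∃ a0 : L, a0 = ((w : L) + Y * (θ : L)) / 2 := ⟨_, rfl⟩
    have hθL : (θ : L) ^ 2 = (p : L) * D := by
      have := congrArg (algebraMap (𝓞 L) L) hθ'
      push_cast at this
      simpa using this
    have hcL : (w : L) ^ 2 - (p : L) * D * Y ^ 2 = 4 * (p * X' ^ 2) := by
      have h1 : w ^ 2 - (p : ℤ) * D * Y ^ 2 = 4 * (p * X' ^ 2) := by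
        rw [hc', hX']; ring
      exact_mod_cast congrArg (Int.cast : ℤ → L) h1
    have hint : IsIntegral ℤ a0 := by
      refine ⟨Polynomial.X ^ 2 - Polynomial.C w * Polynomial.X + Polynomial.C ((p : ℤ) * X' ^ 2),
        ?_, ?_⟩
      · monicity!
      · simp only [Polynomial.eval₂_add, Polynomial.eval₂_sub, Polynomial.eval₂_pow,
          Polynomial.eval₂_X, Polynomial.eval₂_mul, Polynomial.eval₂_C]
        rw [ha0]
        push_cast
        simp only [eq_intCast, Int.cast_mul, Int.cast_pow, Int.cast_natCast]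
        linear_combination (1 / 4 : L) * Y ^ 2 * hθL - (1 / 4 : L) * hcL
    obtain ⟨α, hα⟩ : ∃ α : 𝓞 L, algebraMap (𝓞 L) L α = a0 := ⟨⟨a0, hint⟩, rfl⟩
    have h2α : 2 * α = w + Y * θ := by
      apply FaithfulSMul.algebraMap_injective (𝓞 L) L
      rw [map_mul, hα, ha0, map_add, map_mul]
      simp only [map_intCast, map_ofNat]
      field_simp
    apply hfin α (w - α) X' 2 ⟨2, by rw [hX']; ring⟩ hX'0
    · have h4 : (4 : 𝓞 L) * (α * (w - α)) = 4 * (((p : ℤ) : 𝓞 L) * X' ^ 2) := by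
        have hXS : (X : 𝓞 L) = 2 * X' := by rw [hX']; push_cast; ring
        rw [hXS] at hcS
        push_cast at hθ' ⊢
        linear_combination (-(2 : 𝓞 L) * α + w - Y * θ) * h2α - (Y : 𝓞 L) ^ 2 * hθ' + hcS
      exact mul_left_cancel₀ (by norm_num) h4
    · push_cast
      linear_combination -h2α
    · have h5 := (hs p hp).2
      have h6 : Nat.Coprime 2 p := by
        rw [Nat.coprime_two_left]
        exact Nat.odd_iff.2 (by omega)
      exact_mod_cast Nat.isCoprime_iff_coprime.2 h6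
    · obtain ⟨e, f, hef⟩ := hcopX X' ⟨2, by rw [hX']; ring⟩
      refine ⟨e, e, f, ?_⟩
      have hef' : (e : 𝓞 L) * w + f * X' = 1 := by
        exact_mod_cast congrArg (Int.cast : ℤ → 𝓞 L) hef
      linear_combination hef'
  · -- `X` is odd
    apply hfin ((w : 𝓞 L) + Y * θ) (w - Y * θ) X 1 (dvd_refl X) hX0
    · push_cast at hθ' ⊢
      linear_combination -(Y : 𝓞 L) ^ 2 * hθ' + hcS
    · push_cast; ring
    · exact isCoprime_one_left
    · have h1 : IsCoprime (2 : ℤ) X :=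
        (Int.prime_two.irreducible.coprime_iff_not_dvd).2 hX2
      obtain ⟨e, f, hef⟩ := h1.mul_left (hcopX X (dvd_refl X))
      refine ⟨e, e, f, ?_⟩
      have hef' : (e : 𝓞 L) * (2 * w) + f * X = 1 := by
        exact_mod_cast congrArg (Int.cast : ℤ → 𝓞 L) hef
      linear_combination hef'

end Pool.Agent.R493.CR
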