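import Pool.Agent.R493.CR.Q3

set_option autoImplicit false

namespace Pool.Agent.R493.CR

open Ideal Module NumberField
open scoped nonZeroDivisors

theorem prime_ratInt {p : ℕ} (hp : p.Prime) : Prime ((p : ℕ) : 𝓞 ℚ) := by
  rw [← MulEquiv.prime_iff (Rat.ringOfIntegersEquiv : 𝓞 ℚ ≃+* ℤ), map_natCast]
  exact Nat.prime_iff_prime_int.1 hp

theorem dvd_ratInt {a b : ℕ} (h : (a : 𝓞 ℚ) ∣ (b : 𝓞 ℚ)) : a ∣ b := by
  have := map_dvd (Rat.ringOfIntegersEquiv : 𝓞 ℚ ≃+* ℤ) h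
  rw [map_natCast, map_natCast] at this
  exact_mod_cast this

/-- The `4`-rank of the class groups of quadratic fields is unbounded. -/
theorem S24 : S 2 4 := by
  classical
  intro R
  obtain ⟨s, hcard, hs, hsq⟩ := exists_primes (R + 6)
  obtain ⟨n, hn⟩ : ∃ n, n = ∏ q ∈ s, q := ⟨_, rfl⟩
  let e : s ≃ Fin (R + 6) := s.equivFinOfCardEq hcard
  obtain ⟨p, hpdef⟩ : ∃ p : Fin (R + 6) → ℕ, p = fun i => ((e.symm i : s) : ℕ) := ⟨_, rfl⟩
  have hps : ∀ i, p i ∈ s := fun i => by rw [hpdef]; exact (e.symm i).2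
  have hpp : ∀ i, (p i).Prime := fun i => (hs _ (hps i)).1
  have hpinj : ∀ i j, p i = p j → i = j := by
    intro i j h
    rw [hpdef] at h
    exact e.symm.injective (Subtype.ext h)
  have hsqf : Squarefree n := by
    rw [hn]
    apply Finset.squarefree_prod_of_pairwise_isCoprime
    · intro q hq q' hq' hne
      exact Nat.coprime_iff_isRelPrime.1 ((Nat.coprime_primes (hs q hq).1 (hs q' hq').1).2 hne)
    · intro q hq
      exact (hs q hq).1.squarefree
  -- the ideals of `ℤ`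
  have hr : ∀ i, Prime (span {((p i : ℕ) : 𝓞 ℚ)}) := by
    intro i
    have h1 := prime_ratInt (hpp i)
    apply Ideal.prime_of_isPrime
    · rw [Ne, span_singleton_eq_bot]; exact h1.ne_zero
    · exact (Ideal.span_singleton_prime h1.ne_zero).2 h1
  have hdn : ∀ i, p i ∣ n := fun i => by rw [hn]; exact Finset.dvd_prod_of_mem _ (hps i)
  let i0 : Fin (R + 6) := ⟨0, by omega⟩
  obtain ⟨L, hL1, hL2, hQL, hd, θ, hθ⟩ := exists_ext_of ℚ 2 two_ne_zero ((n : ℕ) : 𝓞 ℚ)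
    (span {((p i0 : ℕ) : 𝓞 ℚ)}) (Ideal.isPrime_of_prime (hr i0))
    (by
      rw [Ideal.mem_span_singleton]
      obtain ⟨k, hk⟩ := hdn i0
      exact ⟨(k : 𝓞 ℚ), by rw [hk]; push_cast; ring⟩)
    (by
      rw [Ideal.span_singleton_pow, Ideal.mem_span_singleton]
      intro h
      have h1 : (p i0) ^ 2 ∣ n := by
        apply dvd_ratInt
        push_cast
        exact h
      rw [sq] at h1
      exact (hpp i0).one_lt.ne' (Nat.isUnit_iff.1 (hsqf _ h1)))
  have hQ : hQL = DivisionRing.toRatAlgebra := Subsingleton.elim _ _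
  subst hQ
  rw [map_natCast] at hθ
  have hθ' : θ ^ 2 = ((∏ q ∈ s, q : ℕ) : 𝓞 L) := by rw [hθ, hn]
  have hP0 : ∀ i, span {(((p i : ℕ) : ℤ) : 𝓞 L), θ} ∈ (Ideal (𝓞 L))⁰ := by
    intro i
    rw [mem_nonZeroDivisors_iff_ne_zero, Ideal.zero_eq_bot, Ne, Ideal.span_eq_bot]
    intro h
    have h1 := h (((p i : ℕ) : ℤ) : 𝓞 L) (by simp)
    have h2 : (p i : 𝓞 L) = 0 := by exact_mod_cast h1
    exact (hpp i).ne_zero (by exact_mod_cast h2)
  obtain ⟨P, hPdef⟩ : ∃ P : Fin (R + 6) → (Ideal (𝓞 L))⁰,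
      P = fun i => ⟨span {(((p i : ℕ) : ℤ) : 𝓞 L), θ}, hP0 i⟩ := ⟨_, rfl⟩
  have hPi : ∀ i, (P i : Ideal (𝓞 L)) = span {(((p i : ℕ) : ℤ) : 𝓞 L), θ} := by
    intro i; rw [hPdef]
  have hPsq : ∀ i, (P i : Ideal (𝓞 L)) ^ 2 = span {(((p i : ℕ) : ℤ) : 𝓞 L)} := by
    intro i
    obtain ⟨D, hD⟩ := hdn i
    rw [hPi]
    apply ideal_sq ((p i : ℕ) : ℤ) (D : ℤ)
    · rw [hθ, hD]
      push_cast
      ring
    · rw [Nat.isCoprime_iff_coprime, Nat.Prime.coprime_iff_not_dvd (hpp i)]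
      rintro ⟨k, rfl⟩
      have h1 : p i * p i ∣ n := ⟨k, by rw [hD]; ring⟩
      exact (hpp i).one_lt.ne' (Nat.isUnit_iff.1 (hsqf _ h1))
  have hA0 : ∀ i, span {((p i : ℕ) : 𝓞 ℚ)} ∈ (Ideal (𝓞 ℚ))⁰ := fun i =>
    mem_nonZeroDivisors_iff_ne_zero.2 (hr i).ne_zero
  obtain ⟨g, hg, hgc⟩ := kernel_bound ℚ L (l := 2) (m := 1) Nat.prime_two one_ne_zero hd
    (fun i => ⟨span {((p i : ℕ) : 𝓞 ℚ)}, hA0 i⟩) P
    (by
      intro i
      rw [hPsq]
      simp only
      rw [Ideal.map_span, Set.image_singleton, map_natCast, Int.cast_natCast])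
    (by
      intro i
      rw [pow_one, ClassGroup.mk0_eq_one_iff]
      exact ⟨⟨_, rfl⟩⟩)
    (by intro v _ i; exact ⟨v i, by push_cast; ring⟩)
    (fun i => span {((p i : ℕ) : 𝓞 ℚ)}) hr
    (by
      intro i j
      simp only
      split_ifs with hij
      · subst hij
        have h1 : FiniteMultiplicity (span {((p i : ℕ) : 𝓞 ℚ)}) (span {((p i : ℕ) : 𝓞 ℚ)}) :=
          FiniteMultiplicity.of_prime_left (hr i) (hr i).ne_zero
        exact h1.emultiplicity_self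
      · rw [emultiplicity_eq_zero, Ideal.dvd_iff_le, Ideal.span_singleton_le_span_singleton]
        intro h
        apply hij
        exact hpinj i j ((Nat.prime_dvd_prime_iff_eq (hpp i) (hpp j)).1 (dvd_ratInt h)))
  -- square roots
  have hy : ∀ i, ∃ y : ClassGroup (𝓞 L), y ^ 2 = ClassGroup.mk0 (P i) := fun i =>
    sq_class L s hs hsq θ hθ' (p i) (hps i) (P i) (by rw [hPi])
  choose y hy using hy
  have hy4 : ∀ i, 4 • Additive.ofMul (y i) = 0 := by
    intro i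
    rw [← ofMul_pow, ← ofMul_one]
    congr 1
    have h1 : y i ^ 4 = (y i ^ 2) ^ 2 := by rw [← pow_mul]
    rw [h1, hy, ← map_pow, ClassGroup.mk0_eq_one_iff]
    have h2 : ((P i ^ 2 : (Ideal (𝓞 L))⁰) : Ideal (𝓞 L)) = span {(((p i : ℕ) : ℤ) : 𝓞 L)} := by
      push_cast
      rw [hPsq]
      push_cast
      rfl
    rw [h2]
    exact ⟨⟨_, rfl⟩⟩
  obtain ⟨h, hh⟩ := exists_hom 4 (fun i => Additive.ofMul (y i)) hy4
  have hker := ker_double (one_mul 2) (fun i => Additive.ofMul (ClassGroup.mk0 (P i)))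
    (fun i => Additive.ofMul (y i)) (by
      intro i
      rw [← hy i, ofMul_pow, two_zsmul, two_nsmul]) g hg h hh
  have hdegL : finrank ℚ L = 2 := hd
  have hcardh : Nat.card h.ker ≤ 2 ^ 6 := by
    have h8 : Nat.card g.ker ≤ 8 := by
      refine hgc.trans ?_
      rw [hd]
      norm_num
    calc Nat.card h.ker ≤ Nat.card g.ker * Nat.card g.ker := hker
      _ ≤ 8 * 8 := Nat.mul_le_mul h8 h8
      _ = 2 ^ 6 := by norm_num
  have hEx := exists_inj_of_card_ker 4 6 (R + 6) h hcardh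
  rw [Nat.add_sub_cancel] at hEx
  obtain ⟨F, hF⟩ := hEx
  refine ⟨L, hL1, hL2, hd,
    { toFun := fun x => (F x.toAdd).toMul
      map_one' := by simp
      map_mul' := by intro x y; simp }, ?_⟩
  intro x y hxy
  exact Multiplicative.toAdd.injective (hF (Additive.toMul.injective hxy))

/-- `S(d, m)` for even `d` and all `m` dividing `2 d`. -/
theorem even_degrees {d m : ℕ} (hd0 : d ≠ 0) (hd : Even d) (hm : m ∣ 2 * d) : S d m := by
  obtain ⟨k, hk⟩ := hd.two_dvd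
  have hk0 : k ≠ 0 := by rintro rfl; exact hd0 (by rw [hk, mul_zero])
  have h1 := closure (m := 4) (k := k) (by norm_num) hk0 S24
  rw [← hk] at h1
  refine mono (m := 4 * k) (by positivity) ?_ h1
  have : 4 * k = 2 * d := by rw [hk]; ring
  rwa [this]

end Pool.Agent.R493.CR
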